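import Pool.Agent.BisRg.Targets

set_option autoImplicit false

/-!
# ALD: the value for a fixed threshold
-/

namespace Pool.Agent.BisRg

open Pool.Agent.PT Pool.Agent.BisTh

namespace ALD_

theorem edges_reverse (X : List (List Bool)) (Y : List ℕ) :
    edges X.reverse Y.reverse = edges X Y := by
  unfold edges
  rw [List.map_reverse, List.sum_reverse]
  congr 1
  refine List.map_congr_left fun u _ => ?_
  unfold dg
  rw [List.countP_reverse]

theorem bud_length (W T : Un) :
    (bud W T).length = 6 * (T.length.size + 3 * W.length.size) := by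
  unfold bud
  rw [List.length_append, rep_length, rep_length, ← Nat.size_eq_bits_len,
    ← Nat.size_eq_bits_len]
  ring

theorem le_pow (t w : ℕ) : t * w ^ 3 ≤ 2 ^ (t.size + 3 * w.size) := by
  rw [pow_add, mul_comm 3, pow_mul]
  exact Nat.mul_le_mul (Nat.lt_size_self t).le (Nat.pow_le_pow_left (Nat.lt_size_self w).le 3)

theorem sum_err (L : List St) (d K N : ℕ)
    (h : ∀ s ∈ L, K * (cnt s.1 s.2 - apx d s.1 s.2) ≤ N) :
    K * ((L.map scnt).sum - (L.map fun s => apx d s.1 s.2).sum) ≤ L.length * N := by
  induction L with
  | nil => simp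
  | cons s L ih =>
    have h1 := ih fun s' hs' => h s' (List.mem_cons_of_mem _ hs')
    have h2 := h s List.mem_cons_self
    have h3 : ((s :: L).map scnt).sum - ((s :: L).map fun s => apx d s.1 s.2).sum ≤
        (cnt s.1 s.2 - apx d s.1 s.2) +
          ((L.map scnt).sum - (L.map fun s => apx d s.1 s.2).sum) := by
      simp only [List.map_cons, List.sum_cons]
      unfold scnt
      omega
    calc K * (((s :: L).map scnt).sum - ((s :: L).map fun s => apx d s.1 s.2).sum)
        ≤ K * ((cnt s.1 s.2 - apx d s.1 s.2) +
          ((L.map scnt).sum - (L.map fun s => apx d s.1 s.2).sum)) := Nat.mul_le_mul_left _ h3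
      _ = K * (cnt s.1 s.2 - apx d s.1 s.2) +
          K * ((L.map scnt).sum - (L.map fun s => apx d s.1 s.2).sum) := Nat.mul_add _ _ _
      _ ≤ N + L.length * N := Nat.add_le_add h2 h1
      _ = (s :: L).length * N := by rw [List.length_cons]; ring

theorem two_pow_le (X : List (List Bool)) (B : Un) :
    2 ^ max X.length B.length ≤ cnt X (List.range B.length) := by
  rcases le_total X.length B.length with h | h
  · rw [max_eq_right h]
    have := cnt_ge_right X (List.range B.length)
    rwa [List.length_range] at this
  · rw [max_eq_left h]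
    exact cnt_ge_left _ _

end ALD_

open ALD_ in
theorem p_ALD (h_LER : T_LER) (h_LGD : T_LGD) (h_INV : T_INV) (h_LLE : T_LLE) : T_ALD := by
  refine ⟨fun D W T B X => ?_, fun D c hD W T B X hC hc hX hB => ?_⟩
  · unfold algD
    rw [tot_flatMap_leafExp]
    refine le_trans ?_ (h_LLE D W B X)
    exact List.sum_le_sum fun s _ => apx_le _ _ _
  · obtain ⟨hval, hlen⟩ := h_LGD D hD W B X hX hB
    obtain ⟨-, hinv⟩ := h_INV
    have hw : 1 ≤ W.length := Nat.one_le_two_pow.trans hc
    set M := max X.length B.length with hM
    set k := T.length.size + 3 * W.length.size with hk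
    have herr : ∀ s ∈ leaves D W B X,
        2 ^ k * (cnt s.1 s.2 - apx (bud W T).length s.1 s.2) ≤ W.length * 2 ^ M := by
      intro s hs
      obtain ⟨i1, i2, i3, i4⟩ := hinv D W B X s hs
      have h1 := hC s.1.reverse s.2.reverse i1 i2
      rw [edges_reverse, List.length_reverse, List.length_reverse] at h1
      have h2 := h_LER D c M k hD s.1 s.2 i3 i4 h1
      rw [bud_length]
      refine h2.trans ?_
      rw [pow_add, mul_comm]
      exact Nat.mul_le_mul_right _ hc
    have h3 := sum_err _ _ _ _ herr
    have h4 : algD D W T B X =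
        ((leaves D W B X).map fun s => apx (bud W T).length s.1 s.2).sum := by
      unfold algD
      rw [tot_flatMap_leafExp]
    rw [hval, ← h4] at h3
    have h5 := le_pow T.length W.length
    rw [← hk] at h5
    refine le_trans ?_ (two_pow_le X B)
    rw [← hM]
    set E := cnt X (List.range B.length) - algD D W T B X with hE
    have h6 : W.length ^ 3 * (T.length * E) ≤ W.length ^ 3 * 2 ^ M := by
      calc W.length ^ 3 * (T.length * E) = T.length * W.length ^ 3 * E := by ring
        _ ≤ 2 ^ k * E := Nat.mul_le_mul_right _ h5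
        _ ≤ (leaves D W B X).length * (W.length * 2 ^ M) := h3
        _ ≤ W.length ^ 2 * (W.length * 2 ^ M) := Nat.mul_le_mul_right _ hlen
        _ = W.length ^ 3 * 2 ^ M := by ring
    exact Nat.le_of_mul_le_mul_left h6 (by positivity)

end Pool.Agent.BisRg
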