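import Pool.Agent.BisRg.Targets

/-!
# ALW: the maximum over all thresholds
-/

set_option autoImplicit false

namespace Pool.Agent.BisRg

open Pool.Agent.BisTh

namespace ALW_

theorem foldl_max_le (l : List ℕ) (m K : ℕ) (hm : m ≤ K) (h : ∀ n ∈ l, n ≤ K) :
    l.foldl (fun m n => max m n) m ≤ K := by
  induction l generalizing m with
  | nil => exact hm
  | cons a l ih =>
    rw [List.foldl_cons]
    exact ih _ (max_le hm (h a List.mem_cons_self)) fun n hn => h n (List.mem_cons_of_mem _ hn)

theorem le_foldl_init (l : List ℕ) (m : ℕ) : m ≤ l.foldl (fun m n => max m n) m := by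
  induction l generalizing m with
  | nil => exact le_rfl
  | cons a l ih =>
    rw [List.foldl_cons]
    exact (le_max_left _ _).trans (ih _)

theorem le_foldl_max (l : List ℕ) (m n : ℕ) (hn : n ∈ l) :
    n ≤ l.foldl (fun m n => max m n) m := by
  induction l generalizing m with
  | nil => simp at hn
  | cons a l ih =>
    rw [List.foldl_cons]
    rcases List.mem_cons.1 hn with h | h
    · rw [h]
      exact (le_max_right _ _).trans (le_foldl_init _ _)
    · exact ih _ h

theorem length_eq (B : Un) (X : List (List Bool)) :
    (rep 5 (B ++ un X) ++ [true, true]).length = 5 * (B.length + X.length) + 2 := by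
  rw [List.length_append, rep_length, List.length_append, un_length]
  rfl

theorem le_algW (D : ℕ) (W T B : Un) (X : List (List Bool))
    (hD : D ≤ 5 * (B.length + X.length) + 1) : algD D W T B X ≤ algW W T B X := by
  unfold algW maxL
  refine le_foldl_max _ _ _ (List.mem_map.2 ⟨D, ?_, rfl⟩)
  rw [List.mem_range, length_eq]
  omega

theorem cond_mono {D D' c : ℕ} {B : Un} {X : List (List Bool)} (h : Cond D c B X)
    (hD : D' ≤ D) : Cond D' c B X := by
  intro X' Y' hX hY
  have h1 := h X' Y' hX hY
  rcases le_total (X'.length + Y'.length) (max X.length B.length + c) with h2 | h2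
  · have := Nat.mul_le_mul_left D' h2
    omega
  · obtain ⟨k, hk⟩ := Nat.exists_eq_add_of_le h2
    rw [hk, Nat.mul_add] at h1 ⊢
    have := Nat.mul_le_mul_right k hD
    omega

end ALW_

open ALW_ in
/-- The maximum over all thresholds. -/
theorem p_ALW (h_ALD : T_ALD) (h_SUB : T_SUB) : T_ALW := by
  refine ⟨fun W T B X => ?_, fun D c hD W T B X hC hc h1 h2 => ?_⟩
  · unfold algW maxL
    refine foldl_max_le _ _ _ (Nat.zero_le _) fun n hn => ?_
    obtain ⟨D, _, rfl⟩ := List.mem_map.1 hn
    exact h_ALD.1 D W T B X
  · have key : ∀ D : ℕ, D ≤ 5 * (B.length + X.length) + 1 →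
        T.length * (cnt X (List.range B.length) - algD D W T B X) ≤
          cnt X (List.range B.length) →
        T.length * (cnt X (List.range B.length) - algW W T B X) ≤
          cnt X (List.range B.length) := by
      intro D hD h
      have h3 := le_algW D W T B X hD
      exact (Nat.mul_le_mul_left _ (by omega)).trans h
    rcases le_total D (5 * (B.length + X.length) + 1) with h | h
    · exact key D h (h_ALD.2 D c hD W T B X hC hc h1 h2)
    · have hW : 1 ≤ W.length := (Nat.one_le_two_pow).trans hc
      refine key _ le_rfl (h_ALD.2 _ c (by omega) W T B X (cond_mono hC h) hc ?_ ?_)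
      · rw [Nat.div_eq_of_lt (by omega), h_SUB.2.1]
        exact hW
      · rw [Nat.div_eq_of_lt (by omega), h_SUB.2.1]
        exact hW

end Pool.Agent.BisRg
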