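import Pool.Agent.BisRg.Targets

set_option autoImplicit false

/-!
# CGN: the count of the graph of the reduction
-/

namespace Pool.Agent.BisRg

open Pool.Agent.PT Pool.Agent.BisTh

theorem p_CGN (h_CRN : T_CRN) : T_CGN := by
  intro c T B X hX
  have h1 := h_CRN c T B X
  have h2 : (gN c T B X).count = cnt (rowsN c T B X)
      (List.range ((kN c T B X).length + (prN c T B X).length + B.length)) :=
    count_ofRows _ _ fun v hv => mem_rowsN hX hv
  rw [← h2] at h1
  obtain ⟨q, hq⟩ : ∃ q, q = 2 ^ ((plN c T B X).length + (prN c T B X).length) *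
    cnt X (List.range B.length) := ⟨_, rfl⟩
  rw [← hq] at h1 ⊢
  have h3 : 2 ^ ((prN c T B X).length + B.length) ≤
      2 ^ ((kN c T B X).length + ((prN c T B X).length + B.length)) :=
    Nat.pow_le_pow_right (by norm_num) (by omega)
  have h4 : (plN c T B X).length = (kN c T B X).length + B.length + T.length + 2 := by
    unfold plN
    simp only [List.length_append, List.length_cons, List.length_nil]
  have h5 : (prN c T B X).length = (kN c T B X).length + X.length + T.length + 2 := by
    unfold prN
    simp only [List.length_append, List.length_cons, List.length_nil, un_length]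
  have h6 : 2 * 2 ^ (kN c T B X).length ≤ 4 ^ (kN c T B X).length + 1 := by
    have h7 : (4 : ℕ) ^ (kN c T B X).length =
        2 ^ (kN c T B X).length * 2 ^ (kN c T B X).length := by
      rw [← mul_pow]
      norm_num
    rw [h7]
    have h8 : 1 ≤ 2 ^ (kN c T B X).length := Nat.one_le_two_pow
    nlinarith
  have h7 : 4 ^ (kN c T B X).length ≤
      2 ^ ((kN c T B X).length + ((prN c T B X).length + B.length)) := by
    have h8 : (4 : ℕ) ^ (kN c T B X).length =
        2 ^ ((kN c T B X).length + (kN c T B X).length) := by
      rw [pow_add, ← mul_pow]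
      norm_num
    rw [h8]
    exact Nat.pow_le_pow_right (by norm_num) (by omega)
  have h8 : 1 ≤ 2 ^ (kN c T B X).length := Nat.one_le_two_pow
  refine ⟨by omega, ?_⟩
  have h9 : (gN c T B X).count - q ≤
      4 * 2 ^ ((kN c T B X).length + ((prN c T B X).length + B.length)) := by omega
  refine (Nat.mul_le_mul_left _ h9).trans (le_of_eq ?_)
  have h10 : (4 : ℕ) = 2 ^ 2 := by norm_num
  rw [h4, h10, ← pow_add, ← pow_add]
  congr 1
  ring

end Pool.Agent.BisRg
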