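import Pool.Agent.BisRg.Targets

/-!
# BRG.CRN: the number of independent pairs of the rows of the reduction (helper53)
-/

set_option autoImplicit false

namespace Pool.Agent.BisRg

open Pool.Agent.BisTh

theorem p_CRN : T_CRN := by
  intro c T B X
  set K := kN c T B X with hK
  set PL := plN c T B X with hPL
  set PR := prN c T B X with hPR
  have hsides : PL.length + X.length = PR.length + B.length := by
    rw [hPL, hPR]
    simp only [plN, prN, List.length_append, un_length, List.length_cons, List.length_nil]
    omega
  set full := cst false K ++ cst true PR ++ cst true B with hfull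
  set iso := cst true K ++ cst false PR ++ cst false B with hiso
  set pre := cst true K ++ cst false PR with hpre
  have hprelen : pre.length = K.length + PR.length := by
    rw [hpre, List.length_append, cst_length, cst_length]
  have hrows : rowsN c T B X = List.replicate K.length full ++
      (List.replicate PL.length iso ++ X.map fun u => pre ++ u) := by
    unfold rowsN
    rw [map_const_eq, map_const_eq]
  set Z := List.replicate PL.length iso ++ X.map fun u => pre ++ u with hZ
  have hZlen : Z.length = PR.length + B.length := by
    rw [hZ, List.length_append, List.length_replicate, List.length_map, hsides]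
  have hY := range_three K.length PR.length B.length
  set Y1 := List.range K.length with hY1
  set Y2 := (List.range PR.length).map (fun j => K.length + j) with hY2
  set Y3 := (List.range B.length).map (fun j => K.length + PR.length + j) with hY3
  have h23 : ∀ j ∈ Y2 ++ Y3, ∃ m, m < PR.length + B.length ∧ j = K.length + m := by
    intro j hj
    rw [List.mem_append] at hj
    rcases hj with hj | hj
    · obtain ⟨m, hm, rfl⟩ := List.mem_map.1 hj
      rw [List.mem_range] at hm
      exact ⟨m, by omega, rfl⟩
    · obtain ⟨m, hm, rfl⟩ := List.mem_map.1 hj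
      rw [List.mem_range] at hm
      exact ⟨PR.length + m, by omega, by omega⟩
  -- first rows
  have e1 : (Y1 ++ (Y2 ++ Y3)).filter (nadj full) = Y1 := by
    have f1 : Y1.filter (nadj full) = Y1 := by
      rw [List.filter_eq_self]
      intro j hj
      rw [hY1, List.mem_range] at hj
      rw [hfull, List.append_assoc, nadj_append_left _ _ _ (by rw [cst_length]; exact hj),
        nadj_cst _ _ _ hj]
      rfl
    have f2 : (Y2 ++ Y3).filter (nadj full) = [] := by
      rw [List.filter_eq_nil_iff]
      intro j hj
      obtain ⟨m, hm, rfl⟩ := h23 j hj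
      have hf : full = cst false K ++ cst true (PR ++ B) := by
        rw [hfull, cst_append, List.append_assoc]
      have h1 := nadj_append_right (cst false K) (cst true (PR ++ B)) m
      rw [cst_length] at h1
      rw [hf, h1, nadj_cst _ _ _ (by simpa using hm)]
      simp
    rw [List.filter_append, f1, f2, List.append_nil]
  have a1 := cnt_replicate full Z K.length (Y1 ++ (Y2 ++ Y3))
  rw [e1] at a1
  -- universal columns
  have e2 : ∀ j ∈ Y1, (Z.filter fun u => nadj u j) = [] := by
    intro j hj
    rw [hY1, List.mem_range] at hj
    rw [List.filter_eq_nil_iff]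
    intro u hu
    have hu' : ∃ v, u = cst true K ++ v := by
      rw [hZ, List.mem_append] at hu
      rcases hu with hu | hu
      · exact ⟨cst false PR ++ cst false B, by
          rw [List.eq_of_mem_replicate hu, hiso, List.append_assoc]⟩
      · obtain ⟨v, _, rfl⟩ := List.mem_map.1 hu
        exact ⟨cst false PR ++ v, by rw [hpre, List.append_assoc]⟩
    obtain ⟨v, rfl⟩ := hu'
    rw [nadj_append_left _ _ _ (by rw [cst_length]; exact hj), nadj_cst _ _ _ hj]
    simp
  have a2 := cnt_columns Z [] Y1 (Y2 ++ Y3) e2
  have hY1len : Y1.length = K.length := by simp [hY1]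
  have hY23len : (Y2 ++ Y3).length = PR.length + B.length := by simp [hY2, hY3]
  rw [cnt, hY1len, hY23len] at a2
  have a6 := cnt_columns Z [] Y1 [] e2
  rw [List.append_nil, cnt, cnt_nil_right, hY1len, hZlen, List.length_nil, pow_zero,
    mul_one] at a6
  -- isolated rows
  have e3 : (Y2 ++ Y3).filter (nadj iso) = Y2 ++ Y3 := by
    rw [List.filter_eq_self]
    intro j hj
    obtain ⟨m, hm, rfl⟩ := h23 j hj
    have hf : iso = cst true K ++ cst false (PR ++ B) := by
      rw [hiso, hpre, cst_append, List.append_assoc]
    have h1 := nadj_append_right (cst true K) (cst false (PR ++ B)) m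
    rw [cst_length] at h1
    rw [hf, h1, nadj_cst _ _ _ (by simpa using hm)]
    rfl
  have a3 := cnt_replicate iso (X.map fun u => pre ++ u) PL.length (Y2 ++ Y3)
  rw [e3] at a3
  -- isolated columns
  have e4 : ∀ j ∈ Y2, ((X.map fun u => pre ++ u).filter fun u => nadj u j) =
      X.map fun u => pre ++ u := by
    intro j hj
    obtain ⟨m, hm, rfl⟩ := List.mem_map.1 hj
    rw [List.mem_range] at hm
    rw [List.filter_eq_self]
    intro u hu
    obtain ⟨v, _, rfl⟩ := List.mem_map.1 hu
    rw [nadj_append_left _ _ _ (by rw [hprelen]; omega), hpre]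
    have := nadj_append_right (cst true K) (cst false PR) m
    rw [cst_length] at this
    rw [this, nadj_cst _ _ _ hm]
    rfl
  have a4 := cnt_columns (X.map fun u => pre ++ u) _ Y2 Y3 e4
  have hY2len : Y2.length = PR.length := by simp [hY2]
  have a5 := cnt_shift pre X (List.range B.length)
  rw [hprelen] at a5
  rw [hY2len, a5] at a4
  rw [hrows, hY]
  rw [← hZ] at a3
  set q := cnt X (List.range B.length) with hq
  have b4 : cnt (X.map fun u => pre ++ u) (Y2 ++ Y3) = 2 ^ PR.length * q := by omega
  have b3 : cnt Z (Y2 ++ Y3) = 2 ^ PL.length * 2 ^ PR.length * q := by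
    rw [b4] at a3
    rw [mul_assoc]
    omega
  rw [pow_add 2 PL.length PR.length, pow_add 2 K.length (PR.length + B.length)]
  rw [b3] at a2
  have h4 : 4 ^ K.length = 2 ^ K.length * 2 ^ K.length := by
    rw [← mul_pow]
    norm_num
  rw [h4]
  set x := 2 ^ K.length
  set n := 2 ^ (PR.length + B.length)
  have a7 : x * (cnt Z Y1 + 1) = x * (n + x) := by rw [a6]
  nlinarith

end Pool.Agent.BisRg
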