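import Pool.Agent.BisRg.Targets

/-!
# The degrees of the reduction
-/

set_option autoImplicit false

namespace Pool.Agent.BisRg

open Pool.Agent.BisTh

namespace DEG_

theorem degL_le (G : Bip) (i : Fin G.a) (J : Finset (Fin G.b))
    (h : ∀ j, G.adj i j = true → j ∈ J) : G.degL i ≤ J.card := by
  refine Finset.card_le_card fun j hj => ?_
  simp only [Bip.nbR, Finset.mem_filter, Finset.mem_univ, true_and] at hj
  obtain ⟨i', hi', h'⟩ := hj
  rw [Finset.mem_singleton] at hi'
  subst hi'
  exact h j h'

theorem degR_le (G : Bip) (j : Fin G.b) (I : Finset (Fin G.a))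
    (h : ∀ i, G.adj i j = true → i ∈ I) : G.degR j ≤ I.card := by
  refine Finset.card_le_card fun i hi => ?_
  simp only [Bip.nbL, Finset.mem_filter, Finset.mem_univ, true_and] at hi
  obtain ⟨j', hj', h'⟩ := hi
  rw [Finset.mem_singleton] at hj'
  subst hj'
  exact h i h'

theorem card_ge_eq (n k : ℕ) (h : k ≤ n) :
    (Finset.univ.filter fun j : Fin n => k ≤ j.val).card = n - k := by
  have h1 := card_lt n k h
  have h2 := Finset.card_filter_add_card_filter_not (s := (Finset.univ : Finset (Fin n)))
    (fun j : Fin n => j.val < k)
  simp only [not_lt, Finset.card_univ, Fintype.card_fin] at h2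
  omega

theorem getD_cst (v : Bool) (l : Un) (j : ℕ) (h : j < l.length) :
    (cst v l).getD j false = v := by
  unfold cst
  rw [List.getD_eq_getElem _ _ (by rw [List.length_map]; exact h), List.getElem_map]

theorem getD_left (v : Bool) (l : Un) (w : List Bool) (j : ℕ) (h : j < l.length) :
    (cst v l ++ w).getD j false = v := by
  rw [List.getD_append _ _ _ _ (by rw [cst_length]; exact h), getD_cst _ _ _ h]

theorem getD_right (v : Bool) (l : Un) (w : List Bool) (j : ℕ) (h : l.length ≤ j) :
    (cst v l ++ w).getD j false = w.getD (j - l.length) false := by
  rw [List.getD_append_right _ _ _ _ (by rw [cst_length]; exact h), cst_length]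

/-- an interval of indices and the indices beyond a bound -/
theorem card_two (n k m : ℕ) (hk : k ≤ n) (hm : m ≤ n) :
    (Finset.univ.filter fun j : Fin n => j.val < k ∨ m ≤ j.val).card ≤ k + (n - m) := by
  rw [Finset.filter_or]
  refine (Finset.card_union_le _ _).trans (le_of_eq ?_)
  rw [card_lt _ _ hk, card_ge_eq _ _ hm]

end DEG_

open DEG_ in
theorem p_DEG : T_DEG := by
  intro c T B X hX
  set K := (kN c T B X).length with hK
  set M := (mN T B X).length with hMdef
  have hlen := length_rowsN c T B X
  have hKM : K = M ^ c := by rw [hK]; unfold kN; rw [pw_length]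
  have hM : M = T.length + B.length + X.length + 2 := by
    rw [hMdef]
    unfold mN
    simp only [List.length_append, un_length, List.length_cons, List.length_nil]
  have hPR : (prN c T B X).length = K + X.length + T.length + 2 := by
    unfold prN
    simp only [List.length_append, un_length, List.length_cons, List.length_nil, ← hK]
  have hPL : (plN c T B X).length = K + B.length + T.length + 2 := by
    unfold plN
    simp only [List.length_append, List.length_cons, List.length_nil, ← hK]
  have hN : (gN c T B X).a = 2 * K + M := by
    show (rowsN c T B X).length = _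
    rw [hlen, ← hK, hPR, hM]
    ring
  have hN' : (gN c T B X).b = 2 * K + M := by
    show (kN c T B X).length + (prN c T B X).length + B.length = _
    rw [← hK, hPR, hM]
    ring
  have hR : (rowsN c T B X).length = 2 * K + M := hN
  -- the rows
  have hlow : ∀ (i : ℕ) (hi : i < (rowsN c T B X).length), i < K →
      (rowsN c T B X)[i] = cst false (kN c T B X) ++ cst true (prN c T B X ++ B) := by
    intro i hi hiK
    unfold rowsN
    rw [List.getElem_append_left (by rw [List.length_map]; exact hiK), List.getElem_map,
      List.append_assoc, cst_append]
  have hmid : ∀ (i : ℕ) (hi : i < (rowsN c T B X).length), K ≤ i →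
      i < K + (plN c T B X).length →
      (rowsN c T B X)[i] = cst true (kN c T B X) ++ cst false (prN c T B X ++ B) := by
    intro i hi hiK hiP
    unfold rowsN
    rw [List.getElem_append_right (by rw [List.length_map]; exact hiK)]
    rw [List.getElem_append_left (by
      rw [List.length_map, List.length_map]
      omega), List.getElem_map, List.append_assoc, cst_append]
  have hge : ∀ (i : ℕ) (hi : i < (rowsN c T B X).length), K ≤ i →
      ∃ w, (rowsN c T B X)[i] = cst true (kN c T B X) ++ (cst false (prN c T B X) ++ w) := by
    intro i hi hiK
    have h1 : (rowsN c T B X)[i] ∈ ((plN c T B X).map (fun _ => cst true (kN c T B X) ++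
        cst false (prN c T B X) ++ cst false B) ++
        X.map (fun u => cst true (kN c T B X) ++ cst false (prN c T B X) ++ u)) := by
      unfold rowsN
      rw [List.getElem_append_right (by rw [List.length_map]; exact hiK)]
      exact List.getElem_mem _
    rw [List.mem_append] at h1
    rcases h1 with h1 | h1
    · obtain ⟨_, _, h2⟩ := List.mem_map.1 h1
      exact ⟨cst false B, by rw [← h2, List.append_assoc]⟩
    · obtain ⟨u, _, h2⟩ := List.mem_map.1 h1
      exact ⟨u, by rw [← h2, List.append_assoc]⟩
  have hadj : ∀ (i : Fin (gN c T B X).a) (j : Fin (gN c T B X).b),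
      (gN c T B X).adj i j = ((rowsN c T B X)[i.val]'i.2).getD j.val false := fun _ _ => rfl
  -- the entries
  have e1 : ∀ (i : Fin (gN c T B X).a) (j : Fin (gN c T B X).b), i.val < K → j.val < K →
      (gN c T B X).adj i j = false := by
    intro i j hi hj
    rw [hadj, hlow _ _ hi]
    exact getD_left _ _ _ _ hj
  have e2 : ∀ (i : Fin (gN c T B X).a) (j : Fin (gN c T B X).b), i.val < K → K ≤ j.val →
      (gN c T B X).adj i j = true := by
    intro i j hi hj
    rw [hadj, hlow _ _ hi, getD_right _ _ _ _ hj]
    refine getD_cst _ _ _ ?_
    have h3 := j.2
    rw [List.length_append, hPR]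
    omega
  have e3 : ∀ (i : Fin (gN c T B X).a) (j : Fin (gN c T B X).b), K ≤ i.val → j.val < K →
      (gN c T B X).adj i j = true := by
    intro i j hi hj
    obtain ⟨w, hw⟩ := hge i.val i.2 hi
    rw [hadj, hw]
    exact getD_left _ _ _ _ hj
  have e4 : ∀ (i : Fin (gN c T B X).a) (j : Fin (gN c T B X).b), K ≤ i.val → K ≤ j.val →
      j.val < K + (prN c T B X).length → (gN c T B X).adj i j = false := by
    intro i j hi hj hj2
    obtain ⟨w, hw⟩ := hge i.val i.2 hi
    rw [hadj, hw, getD_right _ _ _ _ hj]
    exact getD_left _ _ _ _ (by omega)
  have e5 : ∀ (i : Fin (gN c T B X).a) (j : Fin (gN c T B X).b), K ≤ i.val →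
      i.val < K + (plN c T B X).length → K ≤ j.val → (gN c T B X).adj i j = false := by
    intro i j hi hi2 hj
    rw [hadj, hmid _ _ hi hi2, getD_right _ _ _ _ hj]
    refine getD_cst _ _ _ ?_
    have h3 := j.2
    rw [List.length_append, hPR]
    omega
  refine ⟨⟨by rw [hN, hN'], fun i => ?_, fun j => ?_⟩, hN, ?_⟩
  · by_cases hi : i.val < K
    · refine ⟨?_, ?_⟩
      · have h1 := le_degL (gN c T B X) i (Finset.univ.filter fun j => K ≤ j.val) (by
          intro j hj
          simp only [Finset.mem_filter, Finset.mem_univ, true_and] at hj
          exact e2 i j hi hj)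
        rw [card_ge_eq _ _ (by omega)] at h1
        omega
      · have h1 := degL_le (gN c T B X) i (Finset.univ.filter fun j => K ≤ j.val) (by
          intro j hj
          simp only [Finset.mem_filter, Finset.mem_univ, true_and]
          by_contra h
          rw [e1 i j hi (by omega)] at hj
          exact absurd hj (by decide))
        rw [card_ge_eq _ _ (by omega)] at h1
        omega
    · refine ⟨?_, ?_⟩
      · have h1 := le_degL (gN c T B X) i (Finset.univ.filter fun j => j.val < K) (by
          intro j hj
          simp only [Finset.mem_filter, Finset.mem_univ, true_and] at hj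
          exact e3 i j (by omega) hj)
        rwa [card_lt _ _ (by omega)] at h1
      · have h1 := degL_le (gN c T B X) i (Finset.univ.filter fun j => j.val < K ∨
            K + (prN c T B X).length ≤ j.val) (by
          intro j hj
          simp only [Finset.mem_filter, Finset.mem_univ, true_and]
          by_contra h
          rw [e4 i j (by omega) (by omega) (by omega)] at hj
          exact absurd hj (by decide))
        have h2 := card_two (gN c T B X).b K (K + (prN c T B X).length) (by omega) (by omega)
        omega
  · by_cases hj : j.val < K
    · refine ⟨?_, ?_⟩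
      · have h1 := le_degR (gN c T B X) j (Finset.univ.filter fun i => K ≤ i.val) (by
          intro i hi
          simp only [Finset.mem_filter, Finset.mem_univ, true_and] at hi
          exact e3 i j hi hj)
        rw [card_ge_eq _ _ (by omega)] at h1
        omega
      · have h1 := degR_le (gN c T B X) j (Finset.univ.filter fun i => K ≤ i.val) (by
          intro i hi
          simp only [Finset.mem_filter, Finset.mem_univ, true_and]
          by_contra h
          rw [e1 i j (by omega) hj] at hi
          exact absurd hi (by decide))
        rw [card_ge_eq _ _ (by omega)] at h1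
        omega
    · refine ⟨?_, ?_⟩
      · have h1 := le_degR (gN c T B X) j (Finset.univ.filter fun i => i.val < K) (by
          intro i hi
          simp only [Finset.mem_filter, Finset.mem_univ, true_and] at hi
          exact e2 i j hi (by omega))
        rwa [card_lt _ _ (by omega)] at h1
      · have h1 := degR_le (gN c T B X) j (Finset.univ.filter fun i => i.val < K ∨
            K + (plN c T B X).length ≤ i.val) (by
          intro i hi
          simp only [Finset.mem_filter, Finset.mem_univ, true_and]
          by_contra h
          rw [e5 i j (by omega) (by omega) (by omega)] at hi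
          exact absurd hi (by decide))
        have h2 := card_two (gN c T B X).a K (K + (plN c T B X).length) (by omega) (by omega)
        omega
  · rw [← hKM, hN]
    omega

end Pool.Agent.BisRg
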