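import Pool.Agent.BisRg.Targets

set_option autoImplicit false

/-! # DUL: weak duality for spread fractional matchings -/

namespace Pool.Agent.BisRg

open Pool.Agent.BisTh

namespace DUL_

open Finset

theorem dg_eq (G : Bip) (i : Fin G.a) (J : List (Fin G.b)) :
    dg (rowOf G i) (J.map Fin.val) = (J.map fun j => if G.adj i j = true then 1 else 0).sum := by
  induction J with
  | nil => rfl
  | cons j J ih =>
    unfold dg at ih ⊢
    rw [List.map_cons, List.countP_cons, ih, List.map_cons, List.sum_cons, nadj_rowOf,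
      Bool.not_not, add_comm]

theorem edges_eq (G : Bip) (I : List (Fin G.a)) (J : List (Fin G.b)) (hI : I.Nodup)
    (hJ : J.Nodup) : edges (I.map (rowOf G)) (J.map Fin.val) =
      ∑ i ∈ I.toFinset, ∑ j ∈ J.toFinset, if G.adj i j = true then 1 else 0 := by
  unfold edges
  rw [List.map_map, List.sum_toFinset _ hI]
  congr 1
  refine List.map_congr_left fun i _ => ?_
  rw [List.sum_toFinset _ hJ]
  exact dg_eq G i J

theorem core (G : Bip) (D c : ℕ) (f : Fin G.a → Fin G.b → ℚ) (h0 : ∀ i j, 0 ≤ f i j)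
    (h1 : ∀ i j, G.adj i j = false → f i j = 0) (h2 : ∀ i j, D * f i j ≤ 1)
    (h3 : ∀ i, ∑ j, f i j ≤ 1) (h4 : ∀ j, ∑ i, f i j ≤ 1)
    (h5 : ((min G.a G.b : ℕ) : ℚ) ≤ ∑ i, ∑ j, f i j + c)
    (S : Finset (Fin G.a)) (T : Finset (Fin G.b)) :
    (D : ℚ) * (#S + #T) ≤ D * ((max G.a G.b : ℕ) + c) +
      ∑ i ∈ S, ∑ j ∈ T, (if G.adj i j = true then 1 else 0 : ℚ) := by
  have e1 : ∑ i ∈ Sᶜ, ∑ j, f i j + ∑ i ∈ S, ∑ j, f i j = ∑ i, ∑ j, f i j :=
    sum_compl_add_sum S _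
  have e2 : ∑ i ∈ S, ∑ j ∈ Tᶜ, f i j + ∑ i ∈ S, ∑ j ∈ T, f i j = ∑ i ∈ S, ∑ j, f i j := by
    rw [← sum_add_distrib]
    exact sum_congr rfl fun i _ => sum_compl_add_sum T _
  have b1 : ∑ i ∈ Sᶜ, ∑ j, f i j ≤ (#Sᶜ : ℚ) := by
    have := sum_le_card_nsmul Sᶜ (fun i => ∑ j, f i j) 1 fun i _ => h3 i
    simpa using this
  have b2 : ∑ i ∈ S, ∑ j ∈ Tᶜ, f i j ≤ (#Tᶜ : ℚ) := by
    calc ∑ i ∈ S, ∑ j ∈ Tᶜ, f i j ≤ ∑ i, ∑ j ∈ Tᶜ, f i j :=
          sum_le_sum_of_subset_of_nonneg (subset_univ _)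
            fun i _ _ => sum_nonneg fun j _ => h0 i j
      _ = ∑ j ∈ Tᶜ, ∑ i, f i j := sum_comm
      _ ≤ (#Tᶜ : ℚ) := by
          have := sum_le_card_nsmul Tᶜ (fun j => ∑ i, f i j) 1 fun j _ => h4 j
          simpa using this
  have b3 : (D : ℚ) * ∑ i ∈ S, ∑ j ∈ T, f i j ≤
      ∑ i ∈ S, ∑ j ∈ T, (if G.adj i j = true then 1 else 0 : ℚ) := by
    rw [mul_sum]
    refine sum_le_sum fun i _ => ?_
    rw [mul_sum]
    refine sum_le_sum fun j _ => ?_
    split_ifs with h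
    · exact h2 i j
    · rw [h1 i j (by simpa using h), mul_zero]
  have c1 : (#Sᶜ : ℚ) = G.a - #S := by
    have h := card_compl_add_card S
    rw [Fintype.card_fin] at h
    have h' : (#Sᶜ : ℚ) + #S = G.a := by exact_mod_cast h
    linarith
  have c2 : (#Tᶜ : ℚ) = G.b - #T := by
    have h := card_compl_add_card T
    rw [Fintype.card_fin] at h
    have h' : (#Tᶜ : ℚ) + #T = G.b := by exact_mod_cast h
    linarith
  have c3 : ((min G.a G.b : ℕ) : ℚ) + ((max G.a G.b : ℕ) : ℚ) = G.a + G.b := by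
    exact_mod_cast min_add_max G.a G.b
  have hD : (0 : ℚ) ≤ D := Nat.cast_nonneg D
  have key : (#S + #T : ℚ) ≤ ((max G.a G.b : ℕ) : ℚ) + c + ∑ i ∈ S, ∑ j ∈ T, f i j := by
    linarith
  calc (D : ℚ) * (#S + #T) ≤ D * (((max G.a G.b : ℕ) : ℚ) + c + ∑ i ∈ S, ∑ j ∈ T, f i j) :=
        mul_le_mul_of_nonneg_left key hD
    _ = D * (((max G.a G.b : ℕ) : ℚ) + c) + D * ∑ i ∈ S, ∑ j ∈ T, f i j := by ring
    _ ≤ _ := by linarith

end DUL_

open DUL_ in
theorem p_DUL : T_DUL := by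
  intro G D c ⟨f, h0, h1, h2, h3, h4, h5⟩ X' Y' hX hY
  rw [List.length_replicate] at hY
  unfold rowsOf at hX
  obtain ⟨I, hI, rfl⟩ := List.sublist_map_iff.1 hX
  have hr : List.range G.b = (List.finRange G.b).map Fin.val := by simp
  rw [hr] at hY
  obtain ⟨J, hJ, rfl⟩ := List.sublist_map_iff.1 hY
  have nI : I.Nodup := hI.nodup (List.nodup_finRange _)
  have nJ : J.Nodup := hJ.nodup (List.nodup_finRange _)
  have h := core G D c f h0 h1 h2 h3 h4 h5 I.toFinset J.toFinset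
  rw [List.toFinset_card_of_nodup nI, List.toFinset_card_of_nodup nJ] at h
  have hl : (rowsOf G).length = G.a := by simp [rowsOf]
  rw [edges_eq G I J nI nJ, List.length_map, List.length_map, List.length_replicate, hl]
  exact_mod_cast h

end Pool.Agent.BisRg
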