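import Pool.Agent.BisRg.Targets

/-!
# Edges removed with the neighbours of a vertex
-/

set_option autoImplicit false

namespace Pool.Agent.BisRg

open Pool.Agent.BisTh

namespace EFL_

theorem dg_cons (u : List Bool) (j : ℕ) (Y : List ℕ) :
    dg u (j :: Y) = dg u Y + (if nadj u j = true then 0 else 1) := by
  unfold dg
  by_cases h : nadj u j = true
  · rw [List.countP_cons_of_neg (by simp [h]), if_pos h]
    rfl
  · rw [List.countP_cons_of_pos (by simp [h]), if_neg h]

theorem dgR_cons (u : List Bool) (X : List (List Bool)) (j : ℕ) :
    dgR (u :: X) j = dgR X j + (if nadj u j = true then 0 else 1) := by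
  unfold dgR
  by_cases h : nadj u j = true
  · rw [List.countP_cons_of_neg (by simp [h]), if_pos h]
    rfl
  · rw [List.countP_cons_of_pos (by simp [h]), if_neg h]

theorem edges_nil (X : List (List Bool)) : edges X [] = 0 := by
  unfold edges dg
  induction X with
  | nil => rfl
  | cons u X ih => rw [List.map_cons, List.sum_cons, ih]; rfl

theorem edges_cons (X : List (List Bool)) (j : ℕ) (Y : List ℕ) :
    edges X (j :: Y) = edges X Y + dgR X j := by
  induction X with
  | nil => rfl
  | cons u X ih =>
    have h1 : ∀ Z, edges (u :: X) Z = dg u Z + edges X Z := by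
      intro Z; unfold edges; rw [List.map_cons, List.sum_cons]
    rw [h1, h1, ih, dg_cons, dgR_cons]
    ring

end EFL_

open EFL_

theorem p_EFL : T_EFL := by
  refine ⟨fun u Y => ?_, fun X Y => ?_, fun d u X Y => ?_⟩
  · induction Y with
    | nil => rfl
    | cons j Y ih =>
      rw [dg_cons]
      by_cases h : nadj u j = true
      · rw [List.filter_cons_of_pos h, List.length_cons, List.length_cons, if_pos h]
        omega
      · rw [List.filter_cons_of_neg h, List.length_cons, if_neg h]
        omega
  · induction Y with
    | nil => rw [edges_nil]; rfl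
    | cons j Y ih => rw [edges_cons, ih, List.map_cons, List.sum_cons]; ring
  · induction Y with
    | nil => intro _; rw [List.filter_nil, edges_nil]; simp [dg]
    | cons j Y ih =>
      intro h
      have h1 := ih fun i hi => h i (List.mem_cons_of_mem _ hi)
      have h2 := h j List.mem_cons_self
      rw [dgR_cons] at h2
      rw [edges_cons, dg_cons]
      by_cases hn : nadj u j = true
      · rw [List.filter_cons_of_pos hn, edges_cons, if_pos hn, Nat.add_zero]
        omega
      · rw [if_neg hn] at h2
        rw [List.filter_cons_of_neg hn, if_neg hn, Nat.mul_add]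
        omega

end Pool.Agent.BisRg
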