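import Pool.Agent.BisRg.Targets

/-!
# INJ: the encoding of the inputs is injective
-/

set_option autoImplicit false

namespace Pool.Agent.BisRg

open Pool.Agent.BisTh

namespace INJ_

theorem unary_zero : encUnary 0 = [Letter.stop] := rfl

theorem unary_succ (n : ℕ) : encUnary (n + 1) = Letter.one :: encUnary n := rfl

theorem unary_append : ∀ (m n : ℕ) (r r' : List Letter),
    encUnary m ++ r = encUnary n ++ r' → m = n ∧ r = r' := by
  intro m
  induction m with
  | zero =>
    intro n r r' h
    cases n with
    | zero =>
      rw [unary_zero, List.singleton_append, List.singleton_append, List.cons.injEq] at h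
      exact ⟨rfl, h.2⟩
    | succ n =>
      rw [unary_zero, unary_succ, List.singleton_append, List.cons_append, List.cons.injEq] at h
      exact absurd h.1 (by decide)
  | succ m ih =>
    intro n r r' h
    cases n with
    | zero =>
      rw [unary_zero, unary_succ, List.singleton_append, List.cons_append, List.cons.injEq] at h
      exact absurd h.1 (by decide)
    | succ n =>
      rw [unary_succ, unary_succ, List.cons_append, List.cons_append, List.cons.injEq] at h
      obtain ⟨h1, h2⟩ := ih n r r' h.2
      exact ⟨congrArg Nat.succ h1, h2⟩

end INJ_

open INJ_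

theorem p_INJ : T_INJ := by
  rintro ⟨G, t, w⟩ ⟨G', t', w'⟩ h
  obtain ⟨hw, h2⟩ := unary_append w w' _ _ h
  have h3 := encInput_injective h2
  have hG : G = G' := congrArg Prod.fst h3
  have ht : t = t' := congrArg Prod.snd h3
  rw [hw, hG, ht]

end Pool.Agent.BisRg
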