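import Pool.Agent.BisRg.Targets

set_option autoImplicit false

/-!
# INV: the states after the sweeps, sublists and small degrees
-/

namespace Pool.Agent.BisRg

open Pool.Agent.BisTh

namespace INV_

theorem dg_mono (u : List Bool) {Y Y' : List ℕ} (h : Y.Sublist Y') : dg u Y ≤ dg u Y' := by
  unfold dg
  exact h.countP_le

theorem dgR_mono {X X' : List (List Bool)} (j : ℕ) (h : X.Sublist X') : dgR X j ≤ dgR X' j := by
  unfold dgR
  exact h.countP_le

/-- The invariant of the left sweep after the rows `P`. -/
def IL (D : ℕ) (P : List (List Bool)) (Y : List ℕ) (s : St) : Prop :=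
  s.1.reverse.Sublist P ∧ s.2.Sublist Y ∧ ∀ u ∈ s.1, 5 * dg u s.2 ≤ D

/-- The invariant of the right sweep after the columns `J`. -/
def IR (D : ℕ) (X : List (List Bool)) (J : List ℕ) (s : St) : Prop :=
  s.1.Sublist X ∧ s.2.reverse.Sublist J ∧ ∀ j ∈ s.2, 5 * dgR s.1 j ≤ D

theorem step_L {D : ℕ} {P : List (List Bool)} {Y : List ℕ} {u : List Bool} {s t : St}
    (h : IL D P Y s) (ht : t ∈ lstep D u s) : IL D (P ++ [u]) Y t := by
  obtain ⟨h1, h2, h3⟩ := h
  have h4 : s.1.reverse.Sublist (P ++ [u]) := h1.trans (List.sublist_append_left P [u])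
  unfold lstep at ht
  by_cases hc : D < dg u s.2 + dg u s.2 + dg u s.2 + dg u s.2 + dg u s.2
  · rw [decide_eq_true hc, cond_true, List.mem_cons, List.mem_singleton] at ht
    rcases ht with rfl | rfl
    · exact ⟨h4, h2, h3⟩
    · refine ⟨h4, List.filter_sublist.trans h2, fun v hv => ?_⟩
      exact (Nat.mul_le_mul_left 5 (dg_mono v List.filter_sublist)).trans (h3 v hv)
  · rw [decide_eq_false hc, cond_false, List.mem_singleton] at ht
    subst ht
    refine ⟨?_, h2, fun v hv => ?_⟩
    · rw [List.reverse_cons]
      exact h1.append (List.Sublist.refl [u])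
    · rcases List.mem_cons.1 hv with rfl | hv
      · change 5 * dg v s.2 ≤ D
        omega
      · exact h3 v hv

theorem step_R {D : ℕ} {X : List (List Bool)} {J : List ℕ} {j : ℕ} {s t : St}
    (h : IR D X J s) (ht : t ∈ rstep D j s) : IR D X (J ++ [j]) t := by
  obtain ⟨h1, h2, h3⟩ := h
  have h4 : s.2.reverse.Sublist (J ++ [j]) := h2.trans (List.sublist_append_left J [j])
  unfold rstep at ht
  by_cases hc : D < dgR s.1 j + dgR s.1 j + dgR s.1 j + dgR s.1 j + dgR s.1 j
  · rw [decide_eq_true hc, cond_true, List.mem_cons, List.mem_singleton] at ht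
    rcases ht with rfl | rfl
    · exact ⟨h1, h4, h3⟩
    · refine ⟨List.filter_sublist.trans h1, h4, fun v hv => ?_⟩
      exact (Nat.mul_le_mul_left 5 (dgR_mono v List.filter_sublist)).trans (h3 v hv)
  · rw [decide_eq_false hc, cond_false, List.mem_singleton] at ht
    subst ht
    refine ⟨h1, ?_, fun v hv => ?_⟩
    · rw [List.reverse_cons]
      exact h2.append (List.Sublist.refl [j])
    · rcases List.mem_cons.1 hv with rfl | hv
      · change 5 * dgR s.1 v ≤ D
        omega
      · exact h3 v hv

theorem sweep_L {D : ℕ} {W : Un} {Y : List ℕ} (X : List (List Bool)) :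
    ∀ (P : List (List Bool)) (L : List St), (∀ s ∈ L, IL D P Y s) →
      ∀ s ∈ sweepL D W X L, IL D (P ++ X) Y s := by
  induction X with
  | nil =>
    intro P L h s hs
    rw [List.append_nil]
    exact h s hs
  | cons u X ih =>
    intro P L h s hs
    unfold sweepL at hs
    rw [List.foldl_cons] at hs
    have h5 := ih (P ++ [u]) (cond (decide (L.length ≤ W.length)) (L.flatMap (lstep D u)) []) (by
      intro t ht
      by_cases hc : L.length ≤ W.length
      · rw [decide_eq_true hc, cond_true, List.mem_flatMap] at ht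
        obtain ⟨s', hs', ht⟩ := ht
        exact step_L (h s' hs') ht
      · rw [decide_eq_false hc, cond_false] at ht
        simp at ht) s hs
    rwa [List.append_assoc, List.singleton_append] at h5

theorem sweep_R {D : ℕ} {W : Un} {X : List (List Bool)} (Y : List ℕ) :
    ∀ (J : List ℕ) (L : List St), (∀ s ∈ L, IR D X J s) →
      ∀ s ∈ sweepR D W Y L, IR D X (J ++ Y) s := by
  induction Y with
  | nil =>
    intro J L h s hs
    rw [List.append_nil]
    exact h s hs
  | cons u Y ih =>
    intro J L h s hs
    unfold sweepR at hs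
    rw [List.foldl_cons] at hs
    have h5 := ih (J ++ [u]) (cond (decide (L.length ≤ W.length)) (L.flatMap (rstep D u)) []) (by
      intro t ht
      by_cases hc : L.length ≤ W.length
      · rw [decide_eq_true hc, cond_true, List.mem_flatMap] at ht
        obtain ⟨s', hs', ht⟩ := ht
        exact step_R (h s' hs') ht
      · rw [decide_eq_false hc, cond_false] at ht
        simp at ht) s hs
    rwa [List.append_assoc, List.singleton_append] at h5

theorem left (D : ℕ) (W : Un) (X : List (List Bool)) (Y : List ℕ) :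
    ∀ s ∈ sweepL D W X [([], Y)], IL D X Y s := by
  intro s hs
  have h := sweep_L (D := D) (W := W) (Y := Y) X [] [([], Y)] (by
    intro t ht
    rw [List.mem_singleton] at ht
    subst ht
    refine ⟨List.Sublist.refl _, List.Sublist.refl _, fun v hv => ?_⟩
    simp at hv) s hs
  rwa [List.nil_append] at h

theorem right (D : ℕ) (W : Un) (X : List (List Bool)) (Y : List ℕ) :
    ∀ s ∈ sweepR D W Y [(X, [])], IR D X Y s := by
  intro s hs
  have h := sweep_R (D := D) (W := W) (X := X) Y [] [(X, [])] (by
    intro t ht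
    rw [List.mem_singleton] at ht
    subst ht
    refine ⟨List.Sublist.refl _, List.Sublist.refl _, fun v hv => ?_⟩
    simp at hv) s hs
  rwa [List.nil_append] at h

end INV_

open INV_ in
/-- INV. -/
theorem p_INV : T_INV := by
  refine ⟨fun D W X Y s hs => ?_, fun D W B X s hs => ?_⟩
  · have h := left D W X Y s hs
    exact ⟨h.1, h.2.1⟩
  · unfold leaves at hs
    rw [List.mem_flatMap] at hs
    obtain ⟨r, hr, hs⟩ := hs
    obtain ⟨a1, a2, a3⟩ := left D W X _ r hr
    obtain ⟨b1, b2, b3⟩ := right D W r.1 r.2 s hs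
    refine ⟨b1.reverse.trans a1, b2.trans a2, fun u hu => ?_, b3⟩
    have h1 : dg u s.2 = dg u s.2.reverse := by
      unfold dg
      rw [List.countP_reverse]
    rw [h1]
    exact (Nat.mul_le_mul_left 5 (dg_mono u b2)).trans (a3 u (b1.subset hu))

end Pool.Agent.BisRg
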