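import Pool.Agent.BisRg.Targets

/-!
# The error of one leaf
-/

set_option autoImplicit false

namespace Pool.Agent.BisRg

open Pool.Agent.BisTh

theorem p_LER (h_MNT : T_MNT) : T_LER := by
  intro D c M k hD X Y hX hY hM
  set x := X.length + Y.length with hx
  rcases le_or_gt (M + c + k) x with h | h
  · -- large excess: everything is small
    set E := x - (M + c) with hE
    have hxE : x = M + c + E := by omega
    have he : D * E ≤ edges X Y := by
      have h1 : D * x = D * (M + c) + D * E := by rw [hxE]; ring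
      omega
    have h2 := h_MNT D E hD X Y hX hY he
    rw [← hx, hxE, pow_add 2 (M + c) E] at h2
    have h3 : (4 : ℕ) ^ E = 2 ^ E * 2 ^ E := by rw [← mul_pow]; norm_num
    rw [h3] at h2
    have h4 : 2 ^ E * cnt X Y ≤ 2 ^ (M + c) := by
      have h5 : (2 ^ E * cnt X Y) * 2 ^ E ≤ 2 ^ (M + c) * 2 ^ E := by
        calc (2 ^ E * cnt X Y) * 2 ^ E = 2 ^ E * 2 ^ E * cnt X Y := by ring
          _ ≤ _ := h2
      exact Nat.le_of_mul_le_mul_right h5 (by positivity)
    calc 2 ^ k * (cnt X Y - apx (6 * k) X Y) ≤ 2 ^ E * cnt X Y :=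
          Nat.mul_le_mul (Nat.pow_le_pow_right (by norm_num) (by omega)) (Nat.sub_le _ _)
      _ ≤ _ := h4
  · have h1 := apx_err X (6 * k) Y
    rw [← hx] at h1
    set e := cnt X Y - apx (6 * k) X Y with he
    have h2 : 4 ^ (6 * k) * e ≤ 3 ^ (6 * k) * 2 ^ x := by
      rw [he, Nat.mul_sub]
      omega
    have h3 : 2 ^ x ≤ 2 ^ (M + c + k) := Nat.pow_le_pow_right (by norm_num) h.le
    have h4 : 3 ^ (6 * k) * 4 ^ k ≤ 4 ^ (6 * k) := by
      rw [pow_mul, pow_mul, ← mul_pow]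
      exact Nat.pow_le_pow_left (by norm_num) _
    have h5 : 3 ^ (6 * k) * (4 ^ k * e) ≤ 3 ^ (6 * k) * (2 ^ (M + c) * 2 ^ k) := by
      calc 3 ^ (6 * k) * (4 ^ k * e) = 3 ^ (6 * k) * 4 ^ k * e := by ring
        _ ≤ 4 ^ (6 * k) * e := Nat.mul_le_mul_right _ h4
        _ ≤ 3 ^ (6 * k) * 2 ^ x := h2
        _ ≤ 3 ^ (6 * k) * (2 ^ (M + c) * 2 ^ k) := by
            rw [← pow_add]
            exact Nat.mul_le_mul_left _ h3
    have h6 : 4 ^ k * e ≤ 2 ^ (M + c) * 2 ^ k := Nat.le_of_mul_le_mul_left h5 (by positivity)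
    have h7 : (4 : ℕ) ^ k = 2 ^ k * 2 ^ k := by rw [← mul_pow]; norm_num
    rw [h7] at h6
    have h8 : (2 ^ k * e) * 2 ^ k ≤ 2 ^ (M + c) * 2 ^ k := by
      calc (2 ^ k * e) * 2 ^ k = 2 ^ k * 2 ^ k * e := by ring
        _ ≤ _ := h6
    exact Nat.le_of_mul_le_mul_right h8 (by positivity)

end Pool.Agent.BisRg
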