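import Pool.Agent.BisRg.Targets

set_option autoImplicit false

/-!
# LGD: value and number of the states after both sweeps
-/

namespace Pool.Agent.BisRg

open Pool.Agent.PT Pool.Agent.BisTh

namespace LGD_

theorem div_le (D m : ℕ) (hD : 1 ≤ D) : m / (D / 5 + 1) ≤ 5 * m / D := by
  rw [Nat.le_div_iff_mul_le (by omega)]
  have h1 : D ≤ 5 * (D / 5 + 1) := by omega
  have h2 : m / (D / 5 + 1) * (D / 5 + 1) ≤ m := Nat.div_mul_le_self _ _
  calc m / (D / 5 + 1) * D ≤ m / (D / 5 + 1) * (5 * (D / 5 + 1)) := Nat.mul_le_mul_left _ h1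
    _ = 5 * (m / (D / 5 + 1) * (D / 5 + 1)) := by ring
    _ ≤ 5 * m := Nat.mul_le_mul_left _ h2

theorem sum_flatMap (L : List St) (f : St → List St) :
    ((L.flatMap f).map scnt).sum = (L.map fun s => ((f s).map scnt).sum).sum := by
  induction L with
  | nil => rfl
  | cons a L ih =>
    rw [List.flatMap_cons, List.map_append, List.sum_append, List.map_cons, List.sum_cons, ih]

theorem length_flatMap (L : List St) (f : St → List St) (c : ℕ) (h : ∀ s ∈ L, (f s).length ≤ c) :
    (L.flatMap f).length ≤ L.length * c := by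
  induction L with
  | nil => simp
  | cons a L ih =>
    rw [List.flatMap_cons, List.length_append, List.length_cons, Nat.succ_mul]
    have h1 := ih fun s hs => h s (List.mem_cons_of_mem _ hs)
    have h2 := h a List.mem_cons_self
    omega

end LGD_

open LGD_ in
theorem p_LGD (h_SWG : T_SWG) (h_SUB : T_SUB) (h_INV : T_INV) : T_LGD := by
  intro D hD W B X hX hB
  obtain ⟨w1, w2⟩ := h_SWG
  obtain ⟨-, -, -, -, mono, -⟩ := h_SUB
  obtain ⟨inv, -⟩ := h_INV
  have p1 : phiL D X [([], List.range B.length)] ≤ W.length := by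
    have h1 : phiL D X [([], List.range B.length)] =
        Sub X.length (B.length / (D / 5 + 1)) := by simp [phiL]
    rw [h1]
    exact (mono _ _ _ _ le_rfl (div_le D _ hD)).trans hX
  obtain ⟨v1, l1⟩ := w1 D W X _ p1
  have hs : ∀ s ∈ sweepL D W X [([], List.range B.length)],
      ((sweepR D W s.2 [(s.1, [])]).map scnt).sum = cnt s.1 s.2 ∧
        (sweepR D W s.2 [(s.1, [])]).length ≤ W.length := by
    intro s hs
    obtain ⟨i1, i2⟩ := inv D W X _ s hs
    have n1 : s.1.length ≤ X.length := by
      have := i1.length_le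
      rwa [List.length_reverse] at this
    have n2 : s.2.length ≤ B.length := by
      have := i2.length_le
      rwa [List.length_range] at this
    have p2 : phiR D s.2 [(s.1, [])] ≤ W.length := by
      have h1 : phiR D s.2 [(s.1, [])] = Sub s.2.length (s.1.length / (D / 5 + 1)) := by
        simp [phiR]
      rw [h1]
      exact (mono _ _ _ _ n2 ((Nat.div_le_div_right n1).trans (div_le D _ hD))).trans hB
    obtain ⟨v2, l2⟩ := w2 D W s.2 _ p2
    refine ⟨?_, l2⟩
    have h3 : ((sweepR D W s.2 [(s.1, [])]).map scnt).sum =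
        valR [] (sweepR D W s.2 [(s.1, [])]) := rfl
    rw [h3, v2]
    simp [valR]
  constructor
  · unfold leaves
    rw [sum_flatMap, List.map_congr_left fun s h => (hs s h).1]
    have h3 : ((sweepL D W X [([], List.range B.length)]).map fun s => cnt s.1 s.2).sum =
        valL [] (sweepL D W X [([], List.range B.length)]) := rfl
    rw [h3, v1]
    simp [valL]
  · unfold leaves
    have h3 := length_flatMap _ _ W.length fun s h => (hs s h).2
    rw [sq]
    exact h3.trans (Nat.mul_le_mul_right _ l1)

end Pool.Agent.BisRg
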