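import Pool.Agent.BisRg.Targets

/-!
BisRg, block LLE: the sweeps give a lower bound.
-/

set_option autoImplicit false

namespace Pool.Agent.BisRg

open Pool.Agent.BisTh

namespace LLE_

theorem left (h : T_VLF) (D : ℕ) (W : Un) : ∀ (X : List (List Bool)) (L : List St),
    valL [] (sweepL D W X L) ≤ valL X L := by
  intro X
  induction X with
  | nil => intro L; exact le_rfl
  | cons u X ih =>
    intro L
    have e : sweepL D W (u :: X) L =
        sweepL D W X (cond (decide (L.length ≤ W.length)) (L.flatMap (lstep D u)) []) := rfl
    rw [e]
    refine (ih _).trans ?_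
    by_cases hL : L.length ≤ W.length
    · rw [decide_eq_true hL]
      exact (h.1 D u X L).le
    · rw [decide_eq_false hL]
      exact Nat.zero_le _

theorem right (h : T_VLF) (D : ℕ) (W : Un) : ∀ (J : List ℕ) (L : List St),
    valR [] (sweepR D W J L) ≤ valR J L := by
  intro J
  induction J with
  | nil => intro L; exact le_rfl
  | cons j J ih =>
    intro L
    have e : sweepR D W (j :: J) L =
        sweepR D W J (cond (decide (L.length ≤ W.length)) (L.flatMap (rstep D j)) []) := rfl
    rw [e]
    refine (ih _).trans ?_
    by_cases hL : L.length ≤ W.length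
    · rw [decide_eq_true hL]
      exact (h.2 D j J L).le
    · rw [decide_eq_false hL]
      exact Nat.zero_le _

theorem flat (g : St → List St) (hg : ∀ s, ((g s).map scnt).sum ≤ scnt s) : ∀ L : List St,
    ((L.flatMap g).map scnt).sum ≤ (L.map scnt).sum := by
  intro L
  induction L with
  | nil => exact le_rfl
  | cons s L ih =>
    rw [List.flatMap_cons, List.map_append, List.sum_append, List.map_cons, List.sum_cons]
    exact add_le_add (hg s) ih

end LLE_

theorem p_LLE (h_VLF : T_VLF) : T_LLE := by
  intro D W B X
  unfold leaves
  have h1 := LLE_.flat (fun s => sweepR D W s.2 [(s.1, [])]) (fun s => by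
    have h := LLE_.right h_VLF D W s.2 [(s.1, [])]
    have e : valR s.2 [(s.1, [])] = scnt s := by
      show ([(s.1, ([] : List ℕ))].map fun t => cnt t.1 (s.2 ++ t.2)).sum = scnt s
      simp [scnt]
    rw [e] at h
    exact h) (sweepL D W X [([], List.range B.length)])
  have h2 := LLE_.left h_VLF D W X [([], List.range B.length)]
  have e2 : valL X [([], List.range B.length)] = cnt X (List.range B.length) := by
    simp [valL]
  rw [e2] at h2
  exact h1.trans h2

end Pool.Agent.BisRg
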