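import Pool.Agent.BisRg.Targets

/-!
# The sweeps run in polynomial time
-/

set_option autoImplicit false

namespace Pool.Agent.BisRg

open Pool.Agent.PT Pool.Agent.BisTh

namespace LPT_

theorem length_flatMap_le' {α : Type} (l : List α) (f : α → List α)
    (h : ∀ x ∈ l, (f x).length ≤ 2) : (l.flatMap f).length ≤ 2 * l.length := by
  induction l with
  | nil => simp
  | cons x l ih =>
    rw [List.flatMap_cons, List.length_append, List.length_cons]
    have h1 := h x List.mem_cons_self
    have h2 := ih fun y hy => h y (List.mem_cons_of_mem _ hy)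
    omega

/-- Sizes in a guarded sweep. -/
theorem sweep_bound {κ : Type} (step : κ → St → List St) (cost : κ → ℕ) (W : Un) (N : ℕ)
    (h2 : ∀ k s, (step k s).length ≤ 2)
    (h3 : ∀ k s M, sz s ≤ M → ∀ q ∈ step k s, sz q ≤ M + cost k) :
    ∀ (l : List κ) (L : List St) (M : ℕ), (∀ s ∈ L, sz s ≤ M) → L.length ≤ 2 * W.length + 1 →
      M + (l.map cost).sum ≤ N →
      sz (l.foldl (fun L u => cond (decide (L.length ≤ W.length)) (L.flatMap (step u)) []) L) ≤
        (2 * W.length + 1) * (N + 1) + 1
  | [], L, M, hM, hL, hN => by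
    rw [List.foldl_nil]
    refine (sz_list_le hM).trans (Nat.add_le_add_right ?_ _)
    rw [List.map_nil, List.sum_nil] at hN
    exact Nat.mul_le_mul hL (by omega)
  | k :: l, L, M, hM, hL, hN => by
    rw [List.foldl_cons]
    rw [List.map_cons, List.sum_cons] at hN
    by_cases h : L.length ≤ W.length
    · have e : (decide (L.length ≤ W.length)) = true := decide_eq_true h
      rw [e, cond_true]
      refine sweep_bound step cost W N h2 h3 l _ (M + cost k) ?_ ?_ (by omega)
      · intro s hs
        obtain ⟨s', hs', hs⟩ := List.mem_flatMap.1 hs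
        exact h3 k s' M (hM s' hs') s hs
      · have := length_flatMap_le' L (step k) fun x _ => h2 k x
        omega
    · have e : (decide (L.length ≤ W.length)) = false := decide_eq_false h
      rw [e, cond_false]
      exact sweep_bound step cost W N h2 h3 l [] M (by simp) (by simp) (by omega)

theorem lstep_len (D : ℕ) (u : List Bool) (s : St) : (lstep D u s).length ≤ 2 := by
  unfold lstep
  cases decide (D < dg u s.2 + dg u s.2 + dg u s.2 + dg u s.2 + dg u s.2) <;> simp

theorem rstep_len (D j : ℕ) (s : St) : (rstep D j s).length ≤ 2 := by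
  unfold rstep
  cases decide (D < dgR s.1 j + dgR s.1 j + dgR s.1 j + dgR s.1 j + dgR s.1 j) <;> simp

theorem lstep_sz (D : ℕ) (u : List Bool) (s : St) (M : ℕ) (hM : sz s ≤ M) :
    ∀ q ∈ lstep D u s, sz q ≤ M + (sz u + 1) := by
  intro q hq
  unfold lstep at hq
  have h1 := sz_filter_le (nadj u) s.2
  have h2 : sz s = sz s.1 + sz s.2 + 1 := sz_pair s.1 s.2
  cases h : decide (D < dg u s.2 + dg u s.2 + dg u s.2 + dg u s.2 + dg u s.2) with
  | true =>
    rw [h, cond_true, List.mem_cons, List.mem_singleton] at hq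
    rcases hq with hq | hq
    · rw [hq]; omega
    · rw [hq, sz_pair]; omega
  | false =>
    rw [h, cond_false, List.mem_singleton] at hq
    rw [hq, sz_pair, sz_cons]; omega

theorem rstep_sz (D j : ℕ) (s : St) (M : ℕ) (hM : sz s ≤ M) :
    ∀ q ∈ rstep D j s, sz q ≤ M + (sz j + 1) := by
  intro q hq
  unfold rstep at hq
  have h1 := sz_filter_le (fun u => nadj u j) s.1
  have h2 : sz s = sz s.1 + sz s.2 + 1 := sz_pair s.1 s.2
  cases h : decide (D < dgR s.1 j + dgR s.1 j + dgR s.1 j + dgR s.1 j + dgR s.1 j) with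
  | true =>
    rw [h, cond_true, List.mem_cons, List.mem_singleton] at hq
    rcases hq with hq | hq
    · rw [hq]; omega
    · rw [hq, sz_pair]; omega
  | false =>
    rw [h, cond_false, List.mem_singleton] at hq
    rw [hq, sz_pair, sz_cons]; omega

theorem sum_sz_le {α : Type} [Dat α] (l : List α) : (l.map fun u => sz u + 1).sum ≤ sz l := by
  induction l with
  | nil => simp
  | cons a l ih => rw [List.map_cons, List.sum_cons, sz_cons]; omega

section

variable {γ : Type} [Dat γ] [hC : Fact Core]

theorem lstep_pt {D : γ → ℕ} {u : γ → List Bool} {s : γ → St} (hD : PolyF D) (hu : PolyF u)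
    (hs : PolyF s) : PolyF (fun x => lstep (D x) (u x) (s x)) := by
  have hd : PolyF (fun x => dg (u x) (s x).2) := by
    unfold dg
    fun_prop
  unfold lstep
  fun_prop

theorem rstep_pt {D j : γ → ℕ} {s : γ → St} (hD : PolyF D) (hj : PolyF j)
    (hs : PolyF s) : PolyF (fun x => rstep (D x) (j x) (s x)) := by
  have hd : PolyF (fun x => dgR (s x).1 (j x)) := by
    unfold dgR
    fun_prop
  unfold rstep
  fun_prop

theorem sweepL_pt {D : γ → ℕ} {W : γ → Un} {X : γ → List (List Bool)} {L : γ → List St}
    (hD : PolyF D) (hW : PolyF W) (hX : PolyF X) (hL : PolyF L)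
    (hlen : ∀ x, (L x).length ≤ 1) : PolyF (fun x => sweepL (D x) (W x) (X x) (L x)) := by
  unfold sweepL
  refine PolyF.foldl (f := fun (x : γ) (L : List St) u =>
    cond (decide (L.length ≤ (W x).length)) (L.flatMap (lstep (D x) u)) []) ?_ hL hX
    (fun x => (2 * sz (W x) + 1) * ((sz (L x) + sz (X x)) + 1) + 1)
    (((((PolyB.const 2).mul hW.bound).add (PolyB.const 1)).mul
      ((hL.bound.add hX.bound).add (PolyB.const 1))).add (PolyB.const 1)) ?_
  · have h1 : PolyF (fun p : γ × List St × List Bool => p.2.1.flatMap (lstep (D p.1) p.2.2)) :=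
      PolyF.flatMap (f := fun (p : γ × List St × List Bool) s => lstep (D p.1) p.2.2 s)
        (lstep_pt (by fun_prop) (by fun_prop) (by fun_prop)) (by fun_prop)
    fun_prop
  · intro x l₁ hl₁
    have h1 := sweep_bound (fun u s => lstep (D x) u s) (fun u => sz u + 1) (W x)
      (sz (L x) + sz (X x)) (fun k s => lstep_len _ _ _) (fun k s M hM => lstep_sz _ _ _ _ hM)
      l₁ (L x) (sz (L x)) (fun s hs => (sz_mem hs).le) (by have := hlen x; omega)
      (by
        have h2 := sum_sz_le l₁
        have h3 := sz_le_of_prefix hl₁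
        omega)
    refine h1.trans (Nat.add_le_add_right (Nat.mul_le_mul_right _ ?_) _)
    have := length_lt_sz (W x)
    omega

theorem sweepR_pt {D : γ → ℕ} {W : γ → Un} {Y : γ → List ℕ} {L : γ → List St}
    (hD : PolyF D) (hW : PolyF W) (hY : PolyF Y) (hL : PolyF L)
    (hlen : ∀ x, (L x).length ≤ 1) : PolyF (fun x => sweepR (D x) (W x) (Y x) (L x)) := by
  unfold sweepR
  refine PolyF.foldl (f := fun (x : γ) (L : List St) j =>
    cond (decide (L.length ≤ (W x).length)) (L.flatMap (rstep (D x) j)) []) ?_ hL hY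
    (fun x => (2 * sz (W x) + 1) * ((sz (L x) + sz (Y x)) + 1) + 1)
    (((((PolyB.const 2).mul hW.bound).add (PolyB.const 1)).mul
      ((hL.bound.add hY.bound).add (PolyB.const 1))).add (PolyB.const 1)) ?_
  · have h1 : PolyF (fun p : γ × List St × ℕ => p.2.1.flatMap (rstep (D p.1) p.2.2)) :=
      PolyF.flatMap (f := fun (p : γ × List St × ℕ) s => rstep (D p.1) p.2.2 s)
        (rstep_pt (by fun_prop) (by fun_prop) (by fun_prop)) (by fun_prop)
    fun_prop
  · intro x l₁ hl₁
    have h1 := sweep_bound (fun u s => rstep (D x) u s) (fun u => sz u + 1) (W x)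
      (sz (L x) + sz (Y x)) (fun k s => rstep_len _ _ _) (fun k s M hM => rstep_sz _ _ _ _ hM)
      l₁ (L x) (sz (L x)) (fun s hs => (sz_mem hs).le) (by have := hlen x; omega)
      (by
        have h2 := sum_sz_le l₁
        have h3 := sz_le_of_prefix hl₁
        omega)
    refine h1.trans (Nat.add_le_add_right (Nat.mul_le_mul_right _ ?_) _)
    have := length_lt_sz (W x)
    omega

end

end LPT_

theorem p_LPT : T_LPT := by
  intro hC
  have h1 : PolyF (fun x : ℕ × In₂ => sweepL x.1 x.2.1 x.2.2.2.2
      [([], List.range x.2.2.2.1.length)]) :=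
    LPT_.sweepL_pt (by fun_prop) (by fun_prop) (by fun_prop) (by fun_prop) (fun x => by simp)
  have h2 : PolyF (fun p : (ℕ × In₂) × St => sweepR p.1.1 p.1.2.1 p.2.2 [(p.2.1, [])]) :=
    LPT_.sweepR_pt (by fun_prop) (by fun_prop) (by fun_prop) (by fun_prop) (fun x => by simp)
  unfold leaves
  exact PolyF.flatMap (f := fun (x : ℕ × In₂) s => sweepR x.1 x.2.1 s.2 [(s.1, [])]) h2 h1

end Pool.Agent.BisRg
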