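import Pool.Agent.BisRg.Targets

/-!
# Few independent sets if the degrees are small and there are many edges
-/

set_option autoImplicit false

namespace Pool.Agent.BisRg

open Pool.Agent.BisTh

namespace MAS_

theorem edges_cons (u : List Bool) (X : List (List Bool)) (Y : List ℕ) :
    edges (u :: X) Y = dg u Y + edges X Y := by
  unfold edges
  rw [List.map_cons, List.sum_cons]

theorem dg_filter_le (v : List Bool) (p : ℕ → Bool) (Y : List ℕ) :
    dg v (Y.filter p) ≤ dg v Y :=
  List.Sublist.countP_le List.filter_sublist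

theorem dgR_cons_le (u : List Bool) (X : List (List Bool)) (j : ℕ) :
    dgR X j ≤ dgR (u :: X) j :=
  List.Sublist.countP_le (List.sublist_cons_self u X)

theorem num (r : ℝ) (hr : 1 ≤ r) (d k : ℕ) (hd : r ^ d = 4 / 3) (hk : k ≤ d) :
    r ^ k + (r ^ d) ^ k / 2 ^ k ≤ 2 := by
  rcases Nat.eq_zero_or_pos k with h | h
  · subst h; norm_num
  · have h1 : r ^ k ≤ 4 / 3 := hd ▸ pow_le_pow_right₀ hr hk
    have h2 : (r ^ d) ^ k / 2 ^ k ≤ 2 / 3 := by
      rw [hd, ← div_pow]
      calc ((4 : ℝ) / 3 / 2) ^ k ≤ (4 / 3 / 2) ^ 1 :=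
            pow_le_pow_of_le_one (by norm_num) (by norm_num) h
        _ = 2 / 3 := by norm_num
    linarith

end MAS_

theorem p_MAS (h_EFL : T_EFL) : T_MAS := by
  obtain ⟨hlen, -, hE⟩ := h_EFL
  intro d r hr hd X
  induction X with
  | nil =>
    intro Y _ _
    simp [edges, cnt]
  | cons u X ih =>
    intro Y hX hY
    have hk : dg u Y ≤ d := hX u List.mem_cons_self
    have h1 := hE d u X Y hY
    have h2 := hlen u Y
    have hYf : ∀ j ∈ Y.filter (nadj u), dgR X j ≤ d := fun j hj =>
      (MAS_.dgR_cons_le u X j).trans (hY j (List.mem_of_mem_filter hj))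
    have i1 := ih Y (fun v hv => hX v (List.mem_cons_of_mem _ hv))
      (fun j hj => (MAS_.dgR_cons_le u X j).trans (hY j hj))
    have i2 := ih (Y.filter (nadj u))
      (fun v hv => (MAS_.dg_filter_le v _ Y).trans (hX v (List.mem_cons_of_mem _ hv))) hYf
    set k := dg u Y with hkdef
    have r0 : (0 : ℝ) < r := by linarith
    have e1 : edges (u :: X) Y = k + edges X Y := MAS_.edges_cons u X Y
    have a1 : r ^ edges (u :: X) Y * (cnt X Y : ℝ) ≤ r ^ k * 2 ^ (X.length + Y.length) := by
      rw [e1, pow_add, mul_assoc]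
      exact mul_le_mul_of_nonneg_left i1 (by positivity)
    have a2 : r ^ edges (u :: X) Y * (cnt X (Y.filter (nadj u)) : ℝ) ≤
        (r ^ d) ^ k / 2 ^ k * 2 ^ (X.length + Y.length) := by
      have b1 : edges (u :: X) Y ≤ edges X (Y.filter (nadj u)) + d * k := by omega
      have b2 : r ^ edges (u :: X) Y ≤ r ^ edges X (Y.filter (nadj u)) * (r ^ d) ^ k := by
        rw [← pow_mul, ← pow_add]
        exact pow_le_pow_right₀ hr b1
      have b3 : (2 : ℝ) ^ (X.length + Y.length) =
          2 ^ (X.length + (Y.filter (nadj u)).length) * 2 ^ k := by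
        rw [← pow_add]
        congr 1
        omega
      calc r ^ edges (u :: X) Y * (cnt X (Y.filter (nadj u)) : ℝ)
          ≤ r ^ edges X (Y.filter (nadj u)) * (r ^ d) ^ k * (cnt X (Y.filter (nadj u)) : ℝ) :=
            mul_le_mul_of_nonneg_right b2 (Nat.cast_nonneg _)
        _ = (r ^ d) ^ k *
            (r ^ edges X (Y.filter (nadj u)) * (cnt X (Y.filter (nadj u)) : ℝ)) := by ring
        _ ≤ (r ^ d) ^ k * 2 ^ (X.length + (Y.filter (nadj u)).length) :=
            mul_le_mul_of_nonneg_left i2 (by positivity)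
        _ = (r ^ d) ^ k / 2 ^ k * 2 ^ (X.length + Y.length) := by
            rw [b3]
            field_simp
    have h3 := MAS_.num r hr d k hd hk
    rw [cnt, List.length_cons]
    push_cast
    have h4 : (0 : ℝ) < 2 ^ (X.length + Y.length) := by positivity
    calc r ^ edges (u :: X) Y * ((cnt X Y : ℝ) + (cnt X (Y.filter (nadj u)) : ℝ))
        ≤ r ^ k * 2 ^ (X.length + Y.length) +
          (r ^ d) ^ k / 2 ^ k * 2 ^ (X.length + Y.length) := by
          rw [mul_add]; exact add_le_add a1 a2
      _ = (r ^ k + (r ^ d) ^ k / 2 ^ k) * 2 ^ (X.length + Y.length) := by ring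
      _ ≤ 2 * 2 ^ (X.length + Y.length) := mul_le_mul_of_nonneg_right h3 h4.le
      _ = 2 ^ (X.length + 1 + Y.length) := by
          rw [show X.length + 1 + Y.length = X.length + Y.length + 1 by ring, pow_succ]
          ring

end Pool.Agent.BisRg
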