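import Pool.Agent.BisRg.Targets

/-!
# Few independent sets if the degrees are small and there are many edges: integer form
-/

set_option autoImplicit false

namespace Pool.Agent.BisRg

open Pool.Agent.BisTh

theorem p_MNT (h_MAS : T_MAS) : T_MNT := by
  intro D E hD X Y hX hY he
  by_cases h0 : edges X Y = 0
  · have hE : E = 0 := by
      rw [h0] at he
      rcases Nat.eq_zero_or_pos E with h | h
      · exact h
      · have := Nat.mul_pos hD h
        omega
    rw [hE, pow_zero, one_mul]
    exact cnt_le X Y
  · have h1 : ∃ u ∈ X, 1 ≤ dg u Y := by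
      by_contra hcon
      push Not at hcon
      apply h0
      unfold edges
      rw [List.sum_eq_zero_iff]
      intro n hn
      obtain ⟨u, hu, rfl⟩ := List.mem_map.1 hn
      have := hcon u hu
      omega
    obtain ⟨u, hu, hu1⟩ := h1
    have hu5 := hX u hu
    set d := D / 5 with hd
    have hd1 : 1 ≤ d := by omega
    have hdpos : (d : ℝ) ≠ 0 := by
      have : (0 : ℝ) < d := by exact_mod_cast hd1
      exact this.ne'
    set r : ℝ := (4 / 3 : ℝ) ^ ((1 : ℝ) / d) with hr
    have hr1 : 1 ≤ r := Real.one_le_rpow (by norm_num) (by positivity)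
    have hrd : r ^ d = 4 / 3 := by
      rw [hr, ← Real.rpow_natCast, ← Real.rpow_mul (by norm_num), one_div,
        inv_mul_cancel₀ hdpos, Real.rpow_one]
    have h2 := h_MAS d r hr1 hrd X Y (fun v hv => by have := hX v hv; omega)
      (fun j hj => by have := hY j hj; omega)
    have h3 : (4 : ℝ) ^ E ≤ r ^ edges X Y := by
      have h5 : d * (5 * E) ≤ edges X Y := by
        have h6 : 5 * d ≤ D := by omega
        calc d * (5 * E) = 5 * d * E := by ring
          _ ≤ D * E := Nat.mul_le_mul_right _ h6
          _ ≤ _ := he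
      calc (4 : ℝ) ^ E ≤ ((4 / 3 : ℝ) ^ 5) ^ E :=
            pow_le_pow_left₀ (by norm_num) (by norm_num) _
        _ = r ^ (d * (5 * E)) := by rw [pow_mul, hrd, pow_mul]
        _ ≤ r ^ edges X Y := pow_le_pow_right₀ hr1 h5
    have h4 : (4 : ℝ) ^ E * (cnt X Y : ℝ) ≤ 2 ^ (X.length + Y.length) :=
      (mul_le_mul_of_nonneg_right h3 (Nat.cast_nonneg _)).trans h2
    exact_mod_cast h4

end Pool.Agent.BisRg
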