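import Pool.Agent.BisRg.Targets

/-!
# One step of the sweeps does not increase the potential (MP_29585b_lc, block PHI)
-/

set_option autoImplicit false

namespace Pool.Agent.BisRg

open Pool.Agent.BisTh

theorem PHI_flat {α : Type} (g : α → List α) (f f' : α → ℕ)
    (h : ∀ s, ((g s).map f).sum ≤ f' s) (L : List α) :
    ((L.flatMap g).map f).sum ≤ (L.map f').sum := by
  induction L with
  | nil => simp
  | cons a L ih =>
    rw [List.flatMap_cons, List.map_append, List.sum_append, List.map_cons, List.sum_cons]
    exact Nat.add_le_add (h a) ih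

theorem PHI_arith (h_SUB : T_SUB) (D m y y' k : ℕ) (hy : y' + k = y)
    (hk : D < k + k + k + k + k) :
    Sub m (y / (D / 5 + 1)) + Sub m (y' / (D / 5 + 1)) ≤ Sub (m + 1) (y / (D / 5 + 1)) := by
  obtain ⟨-, -, -, h4, h5, -⟩ := h_SUB
  have hk' : D / 5 + 1 ≤ k := by omega
  have h1 : y' / (D / 5 + 1) + 1 ≤ y / (D / 5 + 1) := by
    rw [Nat.le_div_iff_mul_le (by omega), add_mul, one_mul]
    have := Nat.div_mul_le_self y' (D / 5 + 1)
    omega
  obtain ⟨r, hr⟩ : ∃ r, y / (D / 5 + 1) = r + 1 :=
    Nat.exists_eq_add_one_of_ne_zero (Nat.ne_zero_of_lt (Nat.lt_of_succ_le h1))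
  rw [hr, h4]
  rw [hr] at h1
  have h2 : y' / (D / 5 + 1) ≤ r := Nat.le_of_succ_le_succ h1
  exact Nat.add_le_add_left (h5 m m _ _ le_rfl h2) _

theorem PHI_len {α : Type} (p : α → Bool) (Y : List α) :
    (Y.filter p).length + Y.countP (fun j => !(p j)) = Y.length := by
  induction Y with
  | nil => simp
  | cons a Y ih =>
    cases hp : p a
    · simp [hp]
      omega
    · simp [hp]
      omega

/-- PHI -/
theorem p_PHI (h_SUB : T_SUB) : T_PHI := by
  have h5 := h_SUB.2.2.2.2.1
  refine ⟨fun D u X L => ?_, fun D j J L => ?_⟩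
  · unfold phiL
    apply PHI_flat
    intro s
    unfold lstep
    by_cases h : D < dg u s.2 + dg u s.2 + dg u s.2 + dg u s.2 + dg u s.2
    · simp only [h, decide_true, cond_true, List.map_cons, List.map_nil, List.sum_cons,
        List.sum_nil, add_zero, List.length_cons]
      exact PHI_arith h_SUB D X.length s.2.length _ (dg u s.2) (PHI_len _ _) h
    · simp only [h, decide_false, cond_false, List.map_cons, List.map_nil, List.sum_cons,
        List.sum_nil, add_zero, List.length_cons]
      exact h5 _ _ _ _ (Nat.le_succ _) le_rfl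
  · unfold phiR
    apply PHI_flat
    intro s
    unfold rstep
    by_cases h : D < dgR s.1 j + dgR s.1 j + dgR s.1 j + dgR s.1 j + dgR s.1 j
    · simp only [h, decide_true, cond_true, List.map_cons, List.map_nil, List.sum_cons,
        List.sum_nil, add_zero, List.length_cons]
      exact PHI_arith h_SUB D J.length s.1.length _ (dgR s.1 j) (PHI_len _ _) h
    · simp only [h, decide_false, cond_false, List.map_cons, List.map_nil, List.sum_cons,
        List.sum_nil, add_zero, List.length_cons]
      exact h5 _ _ _ _ (Nat.le_succ _) le_rfl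

end Pool.Agent.BisRg
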