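import Pool.Agent.BisRg.Targets

/-!
# ST1: a machine for the algorithm with time bound `w` (MP_29585b_lc, job ST1, helper83)
-/

set_option autoImplicit false

namespace Pool.Agent.BisRg

open Pool.Agent.BisTh Pool.Agent.PT

namespace ST1_

/-- The input read from a word. -/
def parse₂ (w : List Letter) : In₂ :=
  ((BisTh.read w).2.1.tail.tail.headD [], (BisTh.read w).2.1.tail.headD [],
    (BisTh.read w).2.1.headD [], (BisTh.read w).2.2.reverse)

theorem parse₂_encInput₂ (x : Bip × ℕ × ℕ) :
    parse₂ (encInput₂ x) = (List.replicate x.2.2 true, List.replicate x.2.1 true,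
      List.replicate x.1.b true, rowsOf x.1) := by
  have h : BisTh.read (encInput₂ x) =
      ([], [List.replicate x.1.b true, List.replicate x.2.1 true, List.replicate x.2.2 true],
        (rowsOf x.1).reverse) := by
    unfold encInput₂ encInput
    simp only
    rw [encBip_eq x.1 (List.replicate x.1.b true) (by simp)]
    unfold encRows
    rw [← encUnary_eq, List.length_replicate]
    unfold BisTh.read
    rw [List.foldl_append, read_unary, List.foldl_append, read_unary, List.foldl_append,
      read_unary, read_rows]
    simp
  unfold parse₂
  rw [h]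
  simp

/-- The value of the algorithm on an instance. -/
def algWG (x : Bip × ℕ × ℕ) : ℕ :=
  algW (List.replicate x.2.2 true) (List.replicate x.2.1 true) (List.replicate x.1.b true)
    (rowsOf x.1)

theorem parse₂_pt [hC : Fact Core] : PolyF parse₂ := by
  have h := read_pt (hC := hC)
  unfold parse₂
  fun_prop

theorem length_rowsOf (G : Bip) : (rowsOf G).length = G.a := by
  simp [rowsOf]

theorem tm_algW (h_WPT : T_WPT) :
    Nonempty (Turing.TM2ComputableInPolyTime encInput₂ encNat algWG) := by
  have hC : Fact Core := ⟨core⟩
  have h1 : PolyF (fun w : List Letter =>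
      encNat (algW (parse₂ w).1 (parse₂ w).2.1 (parse₂ w).2.2.1 (parse₂ w).2.2.2)) := by
    have h2 := (h_WPT hC).comp (parse₂_pt (hC := hC))
    exact h2.bits
  refine tm_of_polyF h1 encInput₂ encNat _ fun x => ?_
  rw [parse₂_encInput₂]
  rfl

end ST1_

open ST1_

theorem p_ST1 (h_WPT : T_WPT) (h_ALW : T_ALW) (h_DUL : T_DUL) : T_ST1 := by
  refine ⟨algWG, tm_algW h_WPT, fun G t w => ⟨?_, fun D c hD hS hw h1 h2 => ?_⟩⟩
  · have h := h_ALW.1 (List.replicate w true) (List.replicate t true) (List.replicate G.b true)
      (rowsOf G)
    rw [List.length_replicate, ← count_eq] at h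
    exact h
  · have h := h_ALW.2 D c hD (List.replicate w true) (List.replicate t true)
      (List.replicate G.b true) (rowsOf G) (h_DUL G D c hS)
      (by rw [List.length_replicate]; exact hw)
      (by rw [List.length_replicate, List.length_replicate, length_rowsOf]; exact h1)
      (by rw [List.length_replicate, List.length_replicate, length_rowsOf]; exact h2)
    rw [List.length_replicate, List.length_replicate, ← count_eq] at h
    exact h

end Pool.Agent.BisRg
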