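import Pool.Agent.BisRg.Targets

/-!
# ST2: polynomial time for dense nearly regular graphs
-/

set_option autoImplicit false

namespace Pool.Agent.BisRg

open Pool.Agent.PT Pool.Agent.BisTh

namespace ST2_

/-- The width of the sweeps. -/
def wid (k : ℕ) (B : Un) (X : List (List Bool)) : Un := pw k (B ++ un X ++ [true])

/-- The value of the algorithm on a graph. -/
def valG (k : ℕ) (x : Bip × ℕ) : ℕ :=
  algW (wid k (List.replicate x.1.b true) (rowsOf x.1)) (List.replicate x.2 true)
    (List.replicate x.1.b true) (rowsOf x.1)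

theorem tm (h_WPT : T_WPT) (k : ℕ) :
    Nonempty (Turing.TM2ComputableInPolyTime encInput encNat (valG k)) := by
  have hC : Fact Core := ⟨core⟩
  have h3 : PolyF (fun x : In => wid k x.2.1 x.2.2) := by
    unfold wid
    exact pw_pt k (by fun_prop)
  have h1 : PolyF (fun x : In => ((wid k x.2.1 x.2.2, x.1, x.2.1, x.2.2) : In₂)) := by
    fun_prop
  have h2 : PolyF (fun w : List Letter => encNat (algW
      (wid k (parse w).2.1 (parse w).2.2) (parse w).1 (parse w).2.1 (parse w).2.2)) :=
    (((h_WPT hC).comp h1).comp (parse_pt (hC := hC))).bits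
  refine tm_of_polyF h2 encInput encNat _ fun x => ?_
  rw [parse_encInput]
  rfl

theorem wid_length (k : ℕ) (B : Un) (X : List (List Bool)) :
    (wid k B X).length = (B.length + X.length + 1) ^ k := by
  unfold wid
  rw [pw_length, List.length_append, List.length_append, un_length]
  rfl

theorem spread_zero (G : Bip) (ha : G.a = 0) : SpreadMatching G 1 0 := by
  refine ⟨fun _ _ => 0, fun _ _ => le_rfl, fun _ _ _ => rfl, fun _ _ => by norm_num,
    fun _ => by simp, fun _ => by simp, ?_⟩
  simp [ha]

end ST2_

open ST2_ in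
/-- Polynomial time for dense nearly regular graphs. -/
theorem p_ST2 (h_WPT : T_WPT) (h_ALW : T_ALW) (h_DUL : T_DUL) (h_NRS : T_NRS) (h_SUB : T_SUB) :
    T_ST2 := by
  intro q C
  set k := 5 * q + q * C with hk
  refine ⟨valG k, tm h_WPT k, fun G t d s hreg had hs => ?_⟩
  set B : Un := List.replicate G.b true with hB
  set X := rowsOf G with hX
  have hBl : B.length = G.b := by rw [hB, List.length_replicate]
  have hXl : X.length = G.a := by simp [hX, rowsOf]
  have hab : G.a = G.b := hreg.1
  have hval : valG k (G, t) = algW (wid k B X) (List.replicate t true) B X := rfl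
  have hcnt : G.count = cnt X (List.range B.length) := by rw [count_eq, hBl]
  rw [hval, hcnt]
  refine ⟨h_ALW.1 _ _ _ _, ?_⟩
  have hN : (wid k B X).length = (G.a + G.a + 1) ^ k := by
    rw [wid_length, hBl, hXl, hab]
  have hN1 : 1 ≤ (wid k B X).length := by
    rw [hN]
    exact Nat.one_le_pow _ _ (by omega)
  obtain ⟨_, _, hS0, _, hSm, hSp⟩ := h_SUB
  have key : ∀ D c : ℕ, 1 ≤ D → SpreadMatching G D c → 2 ^ c ≤ (wid k B X).length →
      Sub G.a (5 * G.a / D) ≤ (wid k B X).length →
      t * (cnt X (List.range B.length) - algW (wid k B X) (List.replicate t true) B X) ≤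
        cnt X (List.range B.length) := by
    intro D c hD hf hc hSub
    have h1 := h_ALW.2 D c hD (wid k B X) (List.replicate t true) B X (h_DUL G D c hf) hc
      (by rw [hXl, hBl, ← hab]; exact hSub) (by rw [hXl, hBl, ← hab]; exact hSub)
    rwa [List.length_replicate] at h1
  rcases Nat.eq_zero_or_pos d with hd | hd
  · have ha : G.a = 0 := by
      rw [hd, mul_zero] at had
      omega
    refine key 1 0 le_rfl (spread_zero G ha) (by simpa using hN1) ?_
    rw [ha, hS0]
    exact hN1
  · refine key (d + s) (q * s) (by omega) (h_NRS G d s q hd hreg had) ?_ ?_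
    · rw [hN]
      have h1 : 2 ^ Nat.log 2 G.a ≤ G.a + G.a + 1 := by
        rcases Nat.eq_zero_or_pos G.a with ha | ha
        · rw [ha]
          simp
        · have := Nat.pow_log_le_self 2 (x := G.a) (by omega)
          omega
      calc 2 ^ (q * s) ≤ 2 ^ (q * (C * Nat.log 2 G.a)) :=
            Nat.pow_le_pow_right (by norm_num) (Nat.mul_le_mul_left _ hs)
        _ = (2 ^ Nat.log 2 G.a) ^ (q * C) := by
            rw [← pow_mul]
            congr 1
            ring
        _ ≤ (G.a + G.a + 1) ^ (q * C) := Nat.pow_le_pow_left h1 _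
        _ ≤ (G.a + G.a + 1) ^ k := Nat.pow_le_pow_right (by omega) (by omega)
    · rw [hN]
      have h1 : 5 * G.a / (d + s) ≤ 5 * q := by
        refine Nat.div_le_of_le_mul ?_
        nlinarith [Nat.zero_le (q * s)]
      calc Sub G.a (5 * G.a / (d + s)) ≤ Sub G.a (5 * q) := hSm _ _ _ _ le_rfl h1
        _ ≤ (G.a + 1) ^ (5 * q) := hSp _ _
        _ ≤ (G.a + G.a + 1) ^ (5 * q) := Nat.pow_le_pow_left (by omega) _
        _ ≤ (G.a + G.a + 1) ^ k := Nat.pow_le_pow_right (by omega) (by omega)

end Pool.Agent.BisRg
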