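import Pool.Agent.BisRg.Targets

/-!
# ST3: reduction of the general problem to dense nearly regular graphs
-/

set_option autoImplicit false

namespace Pool.Agent.BisRg

open Pool.Agent.PT Pool.Agent.BisTh

namespace ST3_

theorem rowsOf_gN (c : ℕ) (T B : Un) (X : List (List Bool)) (hX : ∀ u ∈ X, u.length = B.length) :
    rowsOf (gN c T B X) = rowsN c T B X :=
  rowsOf_ofRows _ _ fun _ hv => mem_rowsN hX hv

/-- The reduction. -/
def rhoN (c : ℕ) (x : Bip × ℕ) : Bip × ℕ :=
  (gN c (List.replicate x.2 true) (List.replicate x.1.b true) (rowsOf x.1),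
    (plN c (List.replicate x.2 true) (List.replicate x.1.b true) (rowsOf x.1)).length +
    (prN c (List.replicate x.2 true) (List.replicate x.1.b true) (rowsOf x.1)).length)

section

variable {γ : Type} [Dat γ] [hC : Fact Core]

theorem kN_pt (c : ℕ) : PolyF (fun x : In => kN c x.1 x.2.1 x.2.2) := by
  unfold kN mN
  exact pw_pt c (by fun_prop)

theorem plN_pt (c : ℕ) : PolyF (fun x : In => plN c x.1 x.2.1 x.2.2) := by
  have h := kN_pt (hC := hC) c
  unfold plN
  fun_prop

theorem prN_pt (c : ℕ) : PolyF (fun x : In => prN c x.1 x.2.1 x.2.2) := by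
  have h := kN_pt (hC := hC) c
  unfold prN
  fun_prop

theorem rowsN_pt (c : ℕ) : PolyF (fun x : In => rowsN c x.1 x.2.1 x.2.2) := by
  have hK := kN_pt (hC := hC) c
  have hL := plN_pt (hC := hC) c
  have hR := prN_pt (hC := hC) c
  have h1 : PolyF (fun x : In => cst false (kN c x.1 x.2.1 x.2.2) ++
      cst true (prN c x.1 x.2.1 x.2.2) ++ cst true x.2.1) :=
    (((cst_pt false hK).append (cst_pt true hR)).append (cst_pt true (by fun_prop)))
  have h2 : PolyF (fun x : In => cst true (kN c x.1 x.2.1 x.2.2) ++
      cst false (prN c x.1 x.2.1 x.2.2) ++ cst false x.2.1) :=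
    (((cst_pt true hK).append (cst_pt false hR)).append (cst_pt false (by fun_prop)))
  have h3 : PolyF (fun x : In => cst true (kN c x.1 x.2.1 x.2.2) ++
      cst false (prN c x.1 x.2.1 x.2.2)) := (cst_pt true hK).append (cst_pt false hR)
  unfold rowsN
  refine PolyF.append (PolyF.map (f := fun (x : In) _ => _) ?_ hK)
    (PolyF.append (PolyF.map (f := fun (x : In) _ => _) ?_ hL)
      (PolyF.map (f := fun (x : In) u => _) ?_ (by fun_prop)))
  · exact h1.comp (g := fun p : In × Bool => p.1) (by fun_prop)
  · exact h2.comp (g := fun p : In × Bool => p.1) (by fun_prop)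
  · exact (h3.comp (g := fun p : In × List Bool => p.1) (by fun_prop)).append (by fun_prop)

theorem tm_rhoN (c : ℕ) :
    Nonempty (Turing.TM2ComputableInPolyTime encInput encInput (rhoN c)) := by
  have h1 : PolyF (fun x : In =>
      ((plN c x.1 x.2.1 x.2.2 ++ prN c x.1 x.2.1 x.2.2).map (fun _ => Letter.one) ++
        [Letter.stop]) ++
      encRows (kN c x.1 x.2.1 x.2.2 ++ prN c x.1 x.2.1 x.2.2 ++ x.2.1)
        (rowsN c x.1 x.2.1 x.2.2)) := by
    have hK := kN_pt (hC := hC) c
    have hL := plN_pt (hC := hC) c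
    have hR := prN_pt (hC := hC) c
    have hW := rowsN_pt (hC := hC) c
    fun_prop
  have h2 := h1.comp (parse_pt (hC := hC))
  refine tm_of_polyF h2 encInput encInput _ fun x => ?_
  rw [parse_encInput]
  simp only
  set T := List.replicate x.2 true with hT
  set B := List.replicate x.1.b true with hB
  set X := rowsOf x.1 with hX
  have hX' : ∀ u ∈ X, u.length = B.length := by
    rw [hB, List.length_replicate]
    exact rowsOf_length x.1
  have e1 : encBip (gN c T B X) = encRows (kN c T B X ++ prN c T B X ++ B) (rowsN c T B X) := by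
    rw [encBip_eq (gN c T B X) (kN c T B X ++ prN c T B X ++ B) (by
      rw [List.length_append, List.length_append]; rfl), rowsOf_gN c T B X hX']
  show _ = encUnary _ ++ encBip (gN c T B X)
  rw [e1, ← encUnary_eq, List.length_append]
  rfl

end

end ST3_

open ST3_ in
theorem p_ST3 (h_CGN : T_CGN) (h_DEG : T_DEG) : T_ST3 := by
  have : Fact Core := ⟨core⟩
  intro c _
  refine ⟨rhoN c, tm_rhoN c, fun H s => ?_⟩
  have hX' : ∀ u ∈ rowsOf H, u.length = (List.replicate H.b true).length := by
    rw [List.length_replicate]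
    exact rowsOf_length H
  have h2 := h_DEG c (List.replicate s true) (List.replicate H.b true) (rowsOf H) hX'
  have h1 := h_CGN c (List.replicate s true) (List.replicate H.b true) (rowsOf H) hX'
  rw [List.length_replicate, List.length_replicate, ← count_eq] at h1
  exact ⟨⟨_, _, h2⟩, h1⟩

end Pool.Agent.BisRg
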