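import Pool.Agent.BisRg.Targets

/-!
# SUB: number of small subsets
-/

set_option autoImplicit false

namespace Pool.Agent.BisRg

open Pool.Agent.BisTh

namespace SUB_

theorem one_le (m r : ℕ) : 1 ≤ Sub m r := by
  unfold Sub
  have h := Finset.single_le_sum (f := fun i => m.choose i) (fun i _ => Nat.zero_le _)
    (Finset.mem_range.mpr (Nat.succ_pos r))
  simpa using h

theorem right_zero (m : ℕ) : Sub m 0 = 1 := by
  simp [Sub]

theorem left_zero (r : ℕ) : Sub 0 r = 1 := by
  unfold Sub
  rw [Finset.sum_range_succ']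
  simp

theorem pascal (m r : ℕ) : Sub (m + 1) (r + 1) = Sub m (r + 1) + Sub m r := by
  unfold Sub
  rw [Finset.sum_range_succ' _ (r + 1), Finset.sum_range_succ' _ (r + 1)]
  simp only [Nat.choose_succ_succ', Finset.sum_add_distrib, Nat.choose_zero_right]
  ring

theorem mono (m m' r r' : ℕ) (hm : m ≤ m') (hr : r ≤ r') : Sub m r ≤ Sub m' r' := by
  unfold Sub
  refine (Finset.sum_le_sum fun i _ => Nat.choose_le_choose i hm).trans ?_
  exact Finset.sum_le_sum_of_subset (Finset.range_mono (Nat.succ_le_succ hr))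

theorem le_pow (m r : ℕ) : Sub m r ≤ (m + 1) ^ r := by
  induction m generalizing r with
  | zero => rw [left_zero]; simp
  | succ m ih =>
    cases r with
    | zero => rw [right_zero]; simp
    | succ r =>
      rw [pascal]
      have h1 := ih (r + 1)
      have h2 := ih r
      have h3 : (m + 1) ^ r ≤ (m + 1 + 1) ^ r := Nat.pow_le_pow_left (Nat.le_succ _) r
      calc Sub m (r + 1) + Sub m r ≤ (m + 1) ^ (r + 1) + (m + 1) ^ r := Nat.add_le_add h1 h2
        _ = (m + 1) ^ r * (m + 1 + 1) := by ring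
        _ ≤ (m + 1 + 1) ^ r * (m + 1 + 1) := Nat.mul_le_mul_right _ h3
        _ = (m + 1 + 1) ^ (r + 1) := by ring

end SUB_

open SUB_ in
theorem p_SUB : T_SUB :=
  ⟨one_le, right_zero, left_zero, pascal, mono, le_pow⟩

end Pool.Agent.BisRg
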