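import Pool.Agent.BisRg.Targets

set_option autoImplicit false

/-!
# The guard never drops anything if the potential is small (block SWG)
-/

namespace Pool.Agent.BisRg

open Pool.Agent.BisTh

namespace SWG_

theorem le_sum {α : Type} (f : α → ℕ) (hf : ∀ a, 1 ≤ f a) (L : List α) :
    L.length ≤ (L.map f).sum := by
  induction L with
  | nil => simp
  | cons a L ih =>
    have := hf a
    simp only [List.length_cons, List.map_cons, List.sum_cons]
    omega

end SWG_

/-- SWG -/
theorem p_SWG (h_PHI : T_PHI) (h_VLF : T_VLF) (h_SUB : T_SUB) : T_SWG := by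
  have h1 := h_SUB.1
  refine ⟨?_, ?_⟩
  · intro D W X
    induction X with
    | nil =>
      intro L hL
      refine ⟨rfl, ?_⟩
      have h2 : L.length ≤ phiL D [] L := SWG_.le_sum _ (fun s => h1 _ _) L
      exact h2.trans hL
    | cons u X ih =>
      intro L hL
      have h2 : L.length ≤ phiL D (u :: X) L := SWG_.le_sum _ (fun s => h1 _ _) L
      have h3 : L.length ≤ W.length := h2.trans hL
      have h4 : sweepL D W (u :: X) L = sweepL D W X (L.flatMap (lstep D u)) := by
        unfold sweepL
        rw [List.foldl_cons, decide_eq_true h3]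
        rfl
      rw [h4, ← h_VLF.1 D u X L]
      exact ih _ ((h_PHI.1 D u X L).trans hL)
  · intro D W J
    induction J with
    | nil =>
      intro L hL
      refine ⟨rfl, ?_⟩
      have h2 : L.length ≤ phiR D [] L := SWG_.le_sum _ (fun s => h1 _ _) L
      exact h2.trans hL
    | cons j J ih =>
      intro L hL
      have h2 : L.length ≤ phiR D (j :: J) L := SWG_.le_sum _ (fun s => h1 _ _) L
      have h3 : L.length ≤ W.length := h2.trans hL
      have h4 : sweepR D W (j :: J) L = sweepR D W J (L.flatMap (rstep D j)) := by
        unfold sweepR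
        rw [List.foldl_cons, decide_eq_true h3]
        rfl
      rw [h4, ← h_VLF.2 D j J L]
      exact ih _ ((h_PHI.2 D j J L).trans hL)

end Pool.Agent.BisRg
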