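import Pool.Agent.BisRg.Targets

/-!
# Target VLF: one step of the sweeps preserves the value (MP_29585b_lc)
-/

set_option autoImplicit false

namespace Pool.Agent.BisRg

open Pool.Agent.BisTh

namespace VLF_

theorem valL_append (X : List (List Bool)) (L L' : List St) :
    valL X (L ++ L') = valL X L + valL X L' := by
  unfold valL
  rw [List.map_append, List.sum_append]

theorem valR_append (J : List ℕ) (L L' : List St) :
    valR J (L ++ L') = valR J L + valR J L' := by
  unfold valR
  rw [List.map_append, List.sum_append]

theorem stepL (h_PRM : T_PRM) (D : ℕ) (u : List Bool) (X : List (List Bool)) (s : St) :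
    valL X (lstep D u s) = cnt ((u :: X) ++ s.1) s.2 := by
  unfold lstep
  rcases h : decide (D < dg u s.2 + dg u s.2 + dg u s.2 + dg u s.2 + dg u s.2) with _ | _
  · rw [cond_false]
    unfold valL
    rw [List.map_singleton, List.sum_singleton]
    exact h_PRM.2 _ _ _ List.perm_middle
  · rw [cond_true]
    unfold valL
    rw [List.map_cons, List.map_singleton, List.sum_cons, List.sum_singleton, List.cons_append,
      cnt]

theorem stepR (h_PRM : T_PRM) (D j : ℕ) (J : List ℕ) (s : St) :
    valR J (rstep D j s) = cnt s.1 ((j :: J) ++ s.2) := by
  unfold rstep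
  rcases h : decide (D < dgR s.1 j + dgR s.1 j + dgR s.1 j + dgR s.1 j + dgR s.1 j) with _ | _
  · rw [cond_false]
    unfold valR
    rw [List.map_singleton, List.sum_singleton]
    exact h_PRM.1 _ _ _ List.perm_middle
  · rw [cond_true]
    unfold valR
    rw [List.map_cons, List.map_singleton, List.sum_cons, List.sum_singleton, List.cons_append,
      cnt_cons_right]

end VLF_

open VLF_

theorem p_VLF (h_PRM : T_PRM) : T_VLF := by
  constructor
  · intro D u X L
    induction L with
    | nil => rfl
    | cons s L ih =>
      rw [List.flatMap_cons, valL_append, ih, stepL h_PRM]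
      unfold valL
      rw [List.map_cons, List.sum_cons]
  · intro D j J L
    induction L with
    | nil => rfl
    | cons s L ih =>
      rw [List.flatMap_cons, valR_append, ih, stepR h_PRM]
      unfold valR
      rw [List.map_cons, List.sum_cons]

end Pool.Agent.BisRg
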