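import Pool.Agent.BisRg.Targets

/-!
# The whole algorithm runs in polynomial time
-/

set_option autoImplicit false

namespace Pool.Agent.BisRg

open Pool.Agent.PT Pool.Agent.BisTh

namespace WPT_

section

variable {γ : Type} [Dat γ] [hC : Fact Core]

theorem bud_pt {W T : γ → Un} (hW : PolyF W) (hT : PolyF T) :
    PolyF (fun x => bud (W x) (T x)) := by
  unfold bud
  have h1 : PolyF (fun x => (T x).length.bits) := by fun_prop
  have h2 : PolyF (fun x => (W x).length.bits) := by fun_prop
  exact (rep_pt 6 h1).append (rep_pt 18 h2)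

theorem bud_bound {W T : γ → Un} (hW : PolyF W) (hT : PolyF T) :
    PolyB (fun x => 2 ^ (bud (W x) (T x)).length) := by
  have h1 : PolyB (fun x => (2 * sz (T x) + 1) ^ 6 * (2 * sz (W x) + 1) ^ 18) :=
    ((((PolyB.const 2).mul hT.bound).add (PolyB.const 1)).pow 6).mul
      ((((PolyB.const 2).mul hW.bound).add (PolyB.const 1)).pow 18)
  refine h1.of_le fun x => ?_
  unfold bud
  rw [List.length_append, rep_length, rep_length, Nat.size_eq_bits_len, Nat.size_eq_bits_len,
    pow_add]
  have e1 := length_lt_sz (T x)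
  have e2 := length_lt_sz (W x)
  refine Nat.mul_le_mul ?_ ?_
  · rw [mul_comm, pow_mul]
    exact Nat.pow_le_pow_left ((two_pow_size_le _).trans (by omega)) _
  · rw [mul_comm, pow_mul]
    exact Nat.pow_le_pow_left ((two_pow_size_le _).trans (by omega)) _

theorem leaf_pt {W T : γ → Un} (hW : PolyF W) (hT : PolyF T) :
    PolyF (fun p : γ × St => leafExp (bud (W p.1) (T p.1)) p.2) := by
  have hb : PolyF (fun p : γ × St => bud (W p.1) (T p.1)) :=
    (bud_pt hW hT).comp (PolyF.fst PolyF.id)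
  have hB : PolyB (fun p : γ × St => 2 ^ (bud (W p.1) (T p.1)).length) := by
    obtain ⟨c, hc⟩ := bud_bound hW hT
    refine ⟨c, fun p => (hc p.1).trans (Nat.pow_le_pow_left ?_ _)⟩
    have := sz_fst p
    omega
  have h1 : PolyF (fun p : γ × St => bfold p.2.1 [([], p.2.2, bud (W p.1) (T p.1))]) := by
    unfold bfold
    refine PolyF.foldl (f := fun (_ : γ × St) (st : List BSt) u => st.flatMap (bstep u)) ?_
      ?_ (by fun_prop)
      (fun p => 2 ^ (bud (W p.1) (T p.1)).length *
        (sz p.2.2 + sz (bud (W p.1) (T p.1)) + 4 * sz p.2.1 + 4) + 1) ?_ ?_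
    · refine PolyF.flatMap (f := fun (p : (γ × St) × List BSt × List Bool) s => bstep p.2.2 s)
        ?_ (by fun_prop)
      exact bstep_pt (by fun_prop) (by fun_prop)
    · have h0 : PolyF (fun p : γ × St => (([] : Un), p.2.2, bud (W p.1) (T p.1))) :=
        (PolyF.const _).pair ((PolyF.snd (PolyF.snd PolyF.id)).pair hb)
      exact h0.cons (PolyF.const _)
    · have k1 : PolyB (fun p : γ × St => sz p.2.2) :=
        (PolyF.snd (PolyF.snd PolyF.id) : PolyF (fun p : γ × St => p.2.2)).bound
      have k2 : PolyB (fun p : γ × St => sz p.2.1) :=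
        (PolyF.fst (PolyF.snd PolyF.id) : PolyF (fun p : γ × St => p.2.1)).bound
      exact (hB.mul (((k1.add hb.bound).add ((PolyB.const 4).mul k2)).add (PolyB.const 4))).add
        (PolyB.const 1)
    · intro p l₁ hl₁
      have h2 := bfold_bound l₁ p.2.2 (bud (W p.1) (T p.1))
      unfold bfold at h2
      refine h2.trans (Nat.add_le_add_right (Nat.mul_le_mul_left _ ?_) _)
      have h3 := length_lt_sz l₁
      have h4 := sz_le_of_prefix hl₁
      omega
  unfold leafExp
  exact PolyF.map (f := fun _ (q : BSt) => q.1 ++ un q.2.1) (by fun_prop) h1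

theorem algD_pt (h_LPT : T_LPT) :
    PolyF (fun x : ℕ × In₂ => algD x.1 x.2.1 x.2.2.1 x.2.2.2.1 x.2.2.2.2) := by
  have hL := h_LPT hC
  have h1 : PolyF (fun p : (ℕ × In₂) × St => leafExp (bud p.1.2.1 p.1.2.2.1) p.2) :=
    leaf_pt (γ := ℕ × In₂) (W := fun x => x.2.1) (T := fun x => x.2.2.1) (by fun_prop)
      (by fun_prop)
  have h2 : PolyF (fun x : ℕ × In₂ =>
      (leaves x.1 x.2.1 x.2.2.2.1 x.2.2.2.2).flatMap (leafExp (bud x.2.1 x.2.2.1))) :=
    PolyF.flatMap (f := fun (x : ℕ × In₂) s => leafExp (bud x.2.1 x.2.2.1) s) h1 hL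
  unfold algD
  exact tot_pt h2

omit hC in
theorem maxL_aux (l : List ℕ) : ∀ m : ℕ,
    l.foldl (fun m n => max m n) m = m ∨ l.foldl (fun m n => max m n) m ∈ l := by
  induction l with
  | nil => intro m; left; rfl
  | cons n l ih =>
    intro m
    rw [List.foldl_cons]
    rcases ih (max m n) with h | h
    · rw [h]
      rcases le_total m n with h' | h'
      · right; rw [max_eq_right h']; exact List.mem_cons_self
      · left; exact max_eq_left h'
    · right; exact List.mem_cons_of_mem _ h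

theorem maxL_pt {l : γ → List ℕ} (hl : PolyF l) : PolyF (fun x => maxL (l x)) := by
  unfold maxL
  refine PolyF.foldl (f := fun (_ : γ) (m : ℕ) n => max m n) (by fun_prop) (by fun_prop) hl
    (fun x => sz (l x) + 1) (hl.bound.add (PolyB.const 1)) ?_
  intro x l₁ hl₁
  rcases maxL_aux l₁ 0 with h | h
  · rw [h]
    have h1 : sz (0 : ℕ) = 1 := by rw [sz_nat]; simp [sz_nil]
    omega
  · have h1 := sz_mem h
    have h2 := sz_le_of_prefix hl₁
    omega

end

end WPT_

theorem p_WPT (h_LPT : T_LPT) : T_WPT := by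
  intro hC
  have h1 := WPT_.algD_pt (hC := hC) h_LPT
  have h2 : PolyF (fun x : In₂ =>
      List.range (rep 5 (x.2.2.1 ++ un x.2.2.2) ++ [true, true]).length) := by
    have h3 : PolyF (fun x : In₂ => rep 5 (x.2.2.1 ++ un x.2.2.2)) := rep_pt 5 (by fun_prop)
    exact PolyF.range_length (h3.append (PolyF.const _))
  have h4 : PolyF (fun p : In₂ × ℕ => algD p.2 p.1.1 p.1.2.1 p.1.2.2.1 p.1.2.2.2) :=
    h1.comp (g := fun p : In₂ × ℕ => (p.2, p.1)) (by fun_prop)
  unfold algW
  exact WPT_.maxL_pt (PolyF.map (f := fun (x : In₂) D => algD D x.1 x.2.1 x.2.2.1 x.2.2.2) h4 h2)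

end Pool.Agent.BisRg
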