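import Pool.Agent.BisRg.P_PRM
import Pool.Agent.BisRg.P_VLF
import Pool.Agent.BisRg.P_LLE
import Pool.Agent.BisRg.P_SUB
import Pool.Agent.BisRg.P_PHI
import Pool.Agent.BisRg.P_SWG
import Pool.Agent.BisRg.P_INV
import Pool.Agent.BisRg.P_LGD
import Pool.Agent.BisRg.P_EFL
import Pool.Agent.BisRg.P_MAS
import Pool.Agent.BisRg.P_MNT
import Pool.Agent.BisRg.P_LER
import Pool.Agent.BisRg.P_ALD
import Pool.Agent.BisRg.P_ALW
import Pool.Agent.BisRg.P_DUL
import Pool.Agent.BisRg.P_NRS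
import Pool.Agent.BisRg.P_LPT
import Pool.Agent.BisRg.P_WPT
import Pool.Agent.BisRg.P_CRN
import Pool.Agent.BisRg.P_CGN
import Pool.Agent.BisRg.P_DEG
import Pool.Agent.BisRg.P_INJ
import Pool.Agent.BisRg.P_ST1
import Pool.Agent.BisRg.P_ST2
import Pool.Agent.BisRg.P_ST3

/-!
# Assembly
-/

set_option autoImplicit false

namespace Pool.Agent.BisRg

open Pool.Agent.BisTh

theorem tVLF : T_VLF := p_VLF p_PRM
theorem tLLE : T_LLE := p_LLE tVLF
theorem tPHI : T_PHI := p_PHI p_SUB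
theorem tSWG : T_SWG := p_SWG tPHI tVLF p_SUB
theorem tLGD : T_LGD := p_LGD tSWG p_SUB p_INV
theorem tLER : T_LER := p_LER (p_MNT (p_MAS p_EFL))
theorem tALD : T_ALD := p_ALD tLER tLGD p_INV tLLE
theorem tALW : T_ALW := p_ALW tALD p_SUB
theorem tWPT : T_WPT := p_WPT p_LPT

theorem encInput₂_injective : Function.Injective encInput₂ := p_INJ

theorem statement1 : Statement1 := p_ST1 tWPT tALW p_DUL

theorem statement2 : Statement2 := p_ST2 tWPT tALW p_DUL p_NRS p_SUB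

theorem statement3 : Statement3 := p_ST3 (p_CGN p_CRN) p_DEG

theorem spread_of_regular (G : Bip) (d : ℕ) (hd : 1 ≤ d) (h : NearRegular G d 0) :
    SpreadMatching G d 0 := by
  have h1 := p_NRS G d 0 G.a hd h (Nat.le_mul_of_pos_right _ hd)
  simpa using h1

end Pool.Agent.BisRg
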