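import Pool.Agent.BisTh.Main

/-!
# Counting independent sets of regular and nearly regular bipartite graphs: statements

MP_29585b_lc. Instances and encodings are those of `Pool.Agent.BisTh.Defs`.
-/

set_option autoImplicit false

namespace Pool.Agent.BisRg

open Pool.Agent.BisTh

/-- Number of subsets of size at most `r` of a set of size `m`. -/
def Sub (m r : ℕ) : ℕ := ∑ i ∈ Finset.range (r + 1), m.choose i

/-- `G` has a fractional matching with all weights at most `1 / D` and total weight at least
`min a b - c`. -/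
def SpreadMatching (G : Bip) (D c : ℕ) : Prop :=
  ∃ f : Fin G.a → Fin G.b → ℚ,
    (∀ i j, 0 ≤ f i j) ∧ (∀ i j, G.adj i j = false → f i j = 0) ∧ (∀ i j, D * f i j ≤ 1) ∧
    (∀ i, ∑ j, f i j ≤ 1) ∧ (∀ j, ∑ i, f i j ≤ 1) ∧
    ((min G.a G.b : ℕ) : ℚ) ≤ ∑ i, ∑ j, f i j + c

/-- Both sides have the same number of vertices and all degrees are between `d` and `d + s`. -/
def NearRegular (G : Bip) (d s : ℕ) : Prop :=
  G.a = G.b ∧ (∀ i, d ≤ G.degL i ∧ G.degL i ≤ d + s) ∧ ∀ j, d ≤ G.degR j ∧ G.degR j ≤ d + s

/-- A graph together with two numbers in unary. -/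
def encInput₂ (x : Bip × ℕ × ℕ) : List Letter := encUnary x.2.2 ++ encInput (x.1, x.2.1)

/-- The algorithm with time bound `w`. -/
def Statement1 : Prop :=
  ∃ A : Bip × ℕ × ℕ → ℕ, Nonempty (Turing.TM2ComputableInPolyTime encInput₂ encNat A) ∧
    ∀ (G : Bip) (t w : ℕ), A (G, t, w) ≤ G.count ∧
      ∀ D c : ℕ, 1 ≤ D → SpreadMatching G D c → 2 ^ c ≤ w → Sub G.a (5 * G.b / D) ≤ w →
        Sub G.b (5 * G.a / D) ≤ w → t * (G.count - A (G, t, w)) ≤ G.count

/-- Polynomial time for dense nearly regular graphs. -/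
def Statement2 : Prop :=
  ∀ q C : ℕ, ∃ A : Bip × ℕ → ℕ, Nonempty (Turing.TM2ComputableInPolyTime encInput encNat A) ∧
    ∀ (G : Bip) (t d s : ℕ), NearRegular G d s → G.a ≤ q * d → s ≤ C * Nat.log 2 G.a →
      A (G, t) ≤ G.count ∧ t * (G.count - A (G, t)) ≤ G.count

/-- Reduction of the general problem to dense nearly regular graphs. -/
def Statement3 : Prop :=
  ∀ c : ℕ, 1 ≤ c → ∃ ρ : Bip × ℕ → Bip × ℕ,
    Nonempty (Turing.TM2ComputableInPolyTime encInput encInput ρ) ∧
    ∀ (H : Bip) (s : ℕ), (∃ d m : ℕ, NearRegular (ρ (H, s)).1 d m ∧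
        (ρ (H, s)).1.a = 2 * d + m ∧ m ^ c ≤ (ρ (H, s)).1.a) ∧
      2 ^ (ρ (H, s)).2 * H.count ≤ (ρ (H, s)).1.count ∧
      2 ^ s * ((ρ (H, s)).1.count - 2 ^ (ρ (H, s)).2 * H.count) ≤ 2 ^ (ρ (H, s)).2

/-! ### The algorithm -/

/-- Number of elements of `Y` adjacent to the row `u`. -/
def dg (u : List Bool) (Y : List ℕ) : ℕ := Y.countP fun j => !(nadj u j)

/-- Number of rows of `X` adjacent to `j`. -/
def dgR (X : List (List Bool)) (j : ℕ) : ℕ := X.countP fun u => !(nadj u j)

/-- Number of edges between `X` and `Y`. -/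
def edges (X : List (List Bool)) (Y : List ℕ) : ℕ := (X.map fun u => dg u Y).sum

/-- One step of the left sweep; a state is (kept rows, remaining right vertices). -/
def lstep (D : ℕ) (u : List Bool) (s : St) : List St :=
  cond (decide (D < dg u s.2 + dg u s.2 + dg u s.2 + dg u s.2 + dg u s.2))
    [s, (s.1, s.2.filter (nadj u))] [(u :: s.1, s.2)]

/-- One step of the right sweep; a state is (remaining rows, kept right vertices). -/
def rstep (D : ℕ) (j : ℕ) (s : St) : List St :=
  cond (decide (D < dgR s.1 j + dgR s.1 j + dgR s.1 j + dgR s.1 j + dgR s.1 j))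
    [s, (s.1.filter (fun u => nadj u j), s.2)] [(s.1, j :: s.2)]

/-- The left sweep; lists longer than `W` are dropped. -/
def sweepL (D : ℕ) (W : Un) (X : List (List Bool)) (L : List St) : List St :=
  X.foldl (fun L u => cond (decide (L.length ≤ W.length)) (L.flatMap (lstep D u)) []) L

/-- The right sweep; lists longer than `W` are dropped. -/
def sweepR (D : ℕ) (W : Un) (Y : List ℕ) (L : List St) : List St :=
  Y.foldl (fun L j => cond (decide (L.length ≤ W.length)) (L.flatMap (rstep D j)) []) L

/-- The states after both sweeps. -/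
def leaves (D : ℕ) (W B : Un) (X : List (List Bool)) : List St :=
  (sweepL D W X [([], List.range B.length)]).flatMap fun s => sweepR D W s.2 [(s.1, [])]

/-- The budget `6 * bits t + 18 * bits w`. -/
def bud (W T : Un) : Un := rep 6 T.length.bits ++ rep 18 W.length.bits

/-- The value for a fixed `D`. -/
def algD (D : ℕ) (W T B : Un) (X : List (List Bool)) : ℕ :=
  tot ((leaves D W B X).flatMap (leafExp (bud W T)))

/-- The maximum of a list. -/
def maxL (l : List ℕ) : ℕ := l.foldl (fun m n => max m n) 0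

/-- The value of the algorithm. -/
def algW (W T B : Un) (X : List (List Bool)) : ℕ :=
  maxL ((List.range (rep 5 (B ++ un X) ++ [true, true]).length).map fun D => algD D W T B X)

/-- Input of the algorithm: `w`, `t`, number of right vertices, rows. -/
abbrev In₂ : Type := Un × Un × Un × List (List Bool)

/-- The inequality used in the analysis. -/
def Cond (D c : ℕ) (B : Un) (X : List (List Bool)) : Prop :=
  ∀ (X' : List (List Bool)) (Y' : List ℕ), X'.Sublist X → Y'.Sublist (List.range B.length) →
    D * (X'.length + Y'.length) ≤ D * (max X.length B.length + c) + edges X' Y'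

end Pool.Agent.BisRg
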