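import Pool.Agent.BisRg.Targets

/-!
# NRS: nearly regular graphs have spread fractional matchings
-/

set_option autoImplicit false

namespace Pool.Agent.BisRg

open Pool.Agent.BisTh

namespace NRS_

/-- the weights -/
def wt (G : Bip) (n : ℕ) (i : Fin G.a) (j : Fin G.b) : ℚ := if G.adj i j then 1 / n else 0

theorem sumL (G : Bip) (n : ℕ) (i : Fin G.a) : ∑ j, wt G n i j = G.degL i / n := by
  have h : G.nbR {i} = Finset.univ.filter (fun j => G.adj i j = true) := by
    ext j
    simp [Bip.nbR]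
  unfold wt Bip.degL
  rw [← Finset.sum_filter, Finset.sum_const, nsmul_eq_mul, h]
  ring

theorem sumR (G : Bip) (n : ℕ) (j : Fin G.b) : ∑ i, wt G n i j = G.degR j / n := by
  have h : G.nbL {j} = Finset.univ.filter (fun i => G.adj i j = true) := by
    ext i
    simp [Bip.nbL]
  unfold wt Bip.degR
  rw [← Finset.sum_filter, Finset.sum_const, nsmul_eq_mul, h]
  ring

end NRS_

open NRS_ in
theorem p_NRS : T_NRS := by
  intro G d s q hd hG ha
  obtain ⟨hab, hL, hR⟩ := hG
  have hn : (0 : ℚ) < ((d + s : ℕ) : ℚ) := by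
    exact_mod_cast (by omega : 0 < d + s)
  refine ⟨wt G (d + s), ?_, ?_, ?_, ?_, ?_, ?_⟩
  · intro i j
    unfold wt
    split_ifs <;> positivity
  · intro i j h
    unfold wt
    rw [if_neg (by simp [h])]
  · intro i j
    unfold wt
    split_ifs
    · rw [mul_one_div, div_self hn.ne']
    · rw [mul_zero]
      exact zero_le_one
  · intro i
    rw [sumL, div_le_one hn]
    exact_mod_cast (hL i).2
  · intro j
    rw [sumR, div_le_one hn]
    exact_mod_cast (hR j).2
  · have h1 : ((min G.a G.b : ℕ) : ℚ) = G.a := by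
      rw [← hab, min_self]
    rw [h1]
    have h2 : ∑ i, ∑ j, wt G (d + s) i j = (∑ i, (G.degL i : ℚ)) / ((d + s : ℕ) : ℚ) := by
      rw [Finset.sum_div]
      exact Finset.sum_congr rfl fun i _ => sumL G (d + s) i
    have h3 : (G.a : ℚ) * d ≤ ∑ i, (G.degL i : ℚ) := by
      have : ∑ _i : Fin G.a, (d : ℚ) ≤ ∑ i, (G.degL i : ℚ) :=
        Finset.sum_le_sum fun i _ => by exact_mod_cast (hL i).1
      simpa using this
    have h4 : (G.a : ℚ) ≤ q * d := by exact_mod_cast ha
    rw [h2]
    rw [← sub_le_iff_le_add, le_div_iff₀ hn]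
    refine le_trans ?_ h3
    push_cast
    have hs : (0 : ℚ) ≤ s := Nat.cast_nonneg s
    have hq : (0 : ℚ) ≤ q := Nat.cast_nonneg q
    have hd0 : (0 : ℚ) ≤ d := Nat.cast_nonneg d
    have h5 := mul_le_mul_of_nonneg_right h4 hs
    have h6 : 0 ≤ (q : ℚ) * s * s := by positivity
    nlinarith

end Pool.Agent.BisRg
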