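import Pool.Agent.BisRg.Targets

set_option autoImplicit false

namespace Pool.Agent.BisRg

open Pool.Agent.BisTh

namespace PRM_

theorem right : ∀ (X : List (List Bool)) (Y Y' : List ℕ), Y.Perm Y' → cnt X Y = cnt X Y'
  | [], Y, Y', h => by rw [cnt, cnt, h.length_eq]
  | u :: X, Y, Y', h => by
    rw [cnt, cnt, right X Y Y' h, right X _ _ (h.filter (nadj u))]

theorem left {X X' : List (List Bool)} (h : X.Perm X') : ∀ Y : List ℕ, cnt X Y = cnt X' Y := by
  induction h with
  | nil => intro Y; rfl
  | cons u _ ih => intro Y; rw [cnt, cnt, ih, ih]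
  | swap u v l =>
    intro Y
    rw [cnt, cnt, cnt, cnt, cnt, cnt]
    have h1 : (Y.filter (nadj v)).filter (nadj u) = (Y.filter (nadj u)).filter (nadj v) := by
      rw [List.filter_filter, List.filter_filter]
      congr 1
      funext a
      exact Bool.and_comm _ _
    rw [h1]
    ring
  | trans _ _ ih1 ih2 => intro Y; rw [ih1, ih2]

end PRM_

theorem p_PRM : T_PRM :=
  ⟨PRM_.right, fun _ _ Y h => PRM_.left h Y⟩

end Pool.Agent.BisRg
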