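import Pool.Agent.BisRg.Defs

/-!
# Targets of the project BisRg (MP_29585b_lc, row 5245)
-/

set_option autoImplicit false

namespace Pool.Agent.BisRg

open Pool.Agent.PT Pool.Agent.BisTh

/-- Value of a list of states of the left sweep, `X` still to be processed. -/
def valL (X : List (List Bool)) (L : List St) : ℕ := (L.map fun s => cnt (X ++ s.1) s.2).sum

/-- Value of a list of states of the right sweep, `J` still to be processed. -/
def valR (J : List ℕ) (L : List St) : ℕ := (L.map fun s => cnt s.1 (J ++ s.2)).sum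

/-- The potential of a list of states of the left sweep. -/
def phiL (D : ℕ) (X : List (List Bool)) (L : List St) : ℕ :=
  (L.map fun s => Sub X.length (s.2.length / (D / 5 + 1))).sum

/-- The potential of a list of states of the right sweep. -/
def phiR (D : ℕ) (J : List ℕ) (L : List St) : ℕ :=
  (L.map fun s => Sub J.length (s.1.length / (D / 5 + 1))).sum

/-- PRM. `cnt` is invariant under permutations of both lists. Right: induction on `X`
(`List.Perm.filter`, `List.Perm.length_eq`). Left: induction on the permutation, for all `Y`; the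
swap case is `List.filter_filter` and commutativity. -/
def T_PRM : Prop :=
  (∀ (X : List (List Bool)) (Y Y' : List ℕ), Y.Perm Y' → cnt X Y = cnt X Y') ∧
  ∀ (X X' : List (List Bool)) (Y : List ℕ), X.Perm X' → cnt X Y = cnt X' Y

/-- VLF. One step of the sweeps preserves the value. Per state: branch case: definition of `cnt`
resp. `cnt_cons_right`; keep case: `(u :: X) ++ K` is a permutation of `X ++ (u :: K)`
(`List.perm_middle`). -/
def T_VLF : Prop :=
  (∀ (D : ℕ) (u : List Bool) (X : List (List Bool)) (L : List St),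
    valL X (L.flatMap (lstep D u)) = valL (u :: X) L) ∧
  ∀ (D j : ℕ) (J : List ℕ) (L : List St), valR J (L.flatMap (rstep D j)) = valR (j :: J) L

/-- LLE. The states after both sweeps count at most everything: `sweepL`, `sweepR` by induction on
the list (the guard only drops states; `valL X [] = 0`), then the two sweeps together
(`valL [] L = (L.map scnt).sum`; for one state `valR Y [(X, [])] = cnt X Y`). -/
def T_LLE : Prop :=
  ∀ (D : ℕ) (W B : Un) (X : List (List Bool)),
    ((leaves D W B X).map scnt).sum ≤ cnt X (List.range B.length)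

/-- SUB. Elementary properties of `Sub m r`. -/
def T_SUB : Prop :=
  (∀ m r : ℕ, 1 ≤ Sub m r) ∧ (∀ m : ℕ, Sub m 0 = 1) ∧ (∀ r : ℕ, Sub 0 r = 1) ∧
  (∀ m r : ℕ, Sub (m + 1) (r + 1) = Sub m (r + 1) + Sub m r) ∧
  (∀ m m' r r' : ℕ, m ≤ m' → r ≤ r' → Sub m r ≤ Sub m' r') ∧
  ∀ m r : ℕ, Sub m r ≤ (m + 1) ^ r

/-- PHI. One step does not increase the potential. Per state: branch case: `dg u Y ≥ D / 5 + 1`
elements of `Y` are removed (`(Y.filter (nadj u)).length + dg u Y = Y.length`), so the quotient
drops by at least `1`, and Pascal's rule; keep case: monotonicity. -/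
def T_PHI : Prop :=
  (∀ (D : ℕ) (u : List Bool) (X : List (List Bool)) (L : List St),
    phiL D X (L.flatMap (lstep D u)) ≤ phiL D (u :: X) L) ∧
  ∀ (D j : ℕ) (J : List ℕ) (L : List St), phiR D J (L.flatMap (rstep D j)) ≤ phiR D (j :: J) L

/-- SWG. If the potential is at most `W.length` then the guard never drops anything: induction on
the list (`L.length ≤ phiL D X L` since every `Sub` is at least `1`; T_PHI, T_VLF). -/
def T_SWG : Prop :=
  (∀ (D : ℕ) (W : Un) (X : List (List Bool)) (L : List St), phiL D X L ≤ W.length →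
    valL [] (sweepL D W X L) = valL X L ∧ (sweepL D W X L).length ≤ W.length) ∧
  ∀ (D : ℕ) (W : Un) (J : List ℕ) (L : List St), phiR D J L ≤ W.length →
    valR [] (sweepR D W J L) = valR J L ∧ (sweepR D W J L).length ≤ W.length

/-- INV. The states after the sweeps: sublists, and small degrees on both sides. Left sweep:
invariant for the fold: `s.1.reverse ++ (remaining rows)` is a sublist of `X`, `s.2` a sublist of
`Y` and `5 * dg u s.2 ≤ D` for all kept rows (kept because `s.2` only shrinks: `dg` is monotone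
for sublists). Right sweep similarly; the left degrees stay small since the kept right vertices
are (up to order) a sublist of the list before the right sweep. -/
def T_INV : Prop :=
  (∀ (D : ℕ) (W : Un) (X : List (List Bool)) (Y : List ℕ),
    ∀ s ∈ sweepL D W X [([], Y)], s.1.reverse.Sublist X ∧ s.2.Sublist Y) ∧
  ∀ (D : ℕ) (W B : Un) (X : List (List Bool)), ∀ s ∈ leaves D W B X,
    s.1.reverse.Sublist X ∧ s.2.reverse.Sublist (List.range B.length) ∧
      (∀ u ∈ s.1, 5 * dg u s.2 ≤ D) ∧ ∀ j ∈ s.2, 5 * dgR s.1 j ≤ D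

/-- LGD. Value and number of the states after both sweeps. The first sweep starts with potential
`Sub X.length (B.length / (D / 5 + 1))`, and `B.length / (D / 5 + 1) ≤ 5 * B.length / D`; the
second one with `Sub s.2.length (s.1.length / (D / 5 + 1))`, `s.1.length ≤ X.length`,
`s.2.length ≤ B.length` by T_INV. -/
def T_LGD : Prop :=
  ∀ (D : ℕ), 1 ≤ D → ∀ (W B : Un) (X : List (List Bool)),
    Sub X.length (5 * B.length / D) ≤ W.length → Sub B.length (5 * X.length / D) ≤ W.length →
    ((leaves D W B X).map scnt).sum = cnt X (List.range B.length) ∧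
      (leaves D W B X).length ≤ W.length ^ 2

/-- EFL. Removing the neighbours of `u` removes at most `(Δ - 1) * dg u Y` edges at the rows of
`X`: these edges are counted by the sum over the removed `j` of `dgR X j ≤ Δ - 1` (as `u` itself is
adjacent to `j` and `dgR (u :: X) j ≤ Δ`). Induction on `X` is not convenient; use
`edges X Y = (Y.map fun j => dgR X j).sum` (both count pairs). -/
def T_EFL : Prop :=
  (∀ (u : List Bool) (Y : List ℕ), (Y.filter (nadj u)).length + dg u Y = Y.length) ∧
  (∀ (X : List (List Bool)) (Y : List ℕ), edges X Y = (Y.map fun j => dgR X j).sum) ∧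
  ∀ (d : ℕ) (u : List Bool) (X : List (List Bool)) (Y : List ℕ),
    (∀ j ∈ Y, dgR (u :: X) j ≤ d) →
    edges X Y + dg u Y ≤ edges X (Y.filter (nadj u)) + d * dg u Y

/-- MAS. Induction on `X`. For `u` with `k = dg u Y`: `cnt (u :: X) Y = cnt X Y + cnt X Y'`,
`Y' = Y.filter (nadj u)`, `edges (u :: X) Y = k + edges X Y`, `edges X Y + k ≤ edges X Y' + d k`
(T_EFL). So `r ^ edges (u :: X) Y * cnt X Y ≤ r ^ k * 2 ^ (|X| + |Y|)` with `r ^ k ≤ r ^ d = 4/3`
(and `= 1` if `k = 0`), and `r ^ edges (u :: X) Y * cnt X Y' ≤ (r ^ d) ^ k * 2 ^ (|X| + |Y| - k)`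
`= (2/3) ^ k * 2 ^ (|X| + |Y|)`; the sum is at most `2 * 2 ^ (|X| + |Y|)`. -/
def T_MAS : Prop :=
  ∀ (d : ℕ) (r : ℝ), 1 ≤ r → r ^ d = 4 / 3 → ∀ (X : List (List Bool)) (Y : List ℕ),
    (∀ u ∈ X, dg u Y ≤ d) → (∀ j ∈ Y, dgR X j ≤ d) →
    r ^ edges X Y * (cnt X Y : ℝ) ≤ 2 ^ (X.length + Y.length)

/-- MNT. If `edges X Y = 0` then `E = 0` (`D ≥ 1`) and the claim is `cnt_le`. Otherwise some row
has `dg u Y ≥ 1`, so `d = D / 5 ≥ 1`; T_MAS with `d` and `r = (4/3) ^ (1/d)` (real power), and
`r ^ edges X Y ≥ r ^ (D * E) ≥ (r ^ d) ^ (5 * E) = ((4/3) ^ 5) ^ E ≥ 4 ^ E`. -/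
def T_MNT : Prop :=
  ∀ (D E : ℕ), 1 ≤ D → ∀ (X : List (List Bool)) (Y : List ℕ),
    (∀ u ∈ X, 5 * dg u Y ≤ D) → (∀ j ∈ Y, 5 * dgR X j ≤ D) → D * E ≤ edges X Y →
    4 ^ E * cnt X Y ≤ 2 ^ (X.length + Y.length)

/-- LER. Error of one leaf. Put `x = X.length + Y.length`. If `x ≥ M + c + k`: `E = x - (M + c)`,
`D * E ≤ edges X Y`, T_MNT gives `4 ^ E * cnt ≤ 2 ^ (M + c + E)`, so `2 ^ k * cnt ≤ 2 ^ E * cnt ≤`
`2 ^ (M + c)`. Otherwise `apx_err` with budget `6 * k` gives
`4 ^ (6 k) * (cnt - apx) ≤ 3 ^ (6 k) * 2 ^ (M + c + k)` and `4 ^ 6 ≥ 4 * 3 ^ 6`. -/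
def T_LER : Prop :=
  ∀ (D c M k : ℕ), 1 ≤ D → ∀ (X : List (List Bool)) (Y : List ℕ),
    (∀ u ∈ X, 5 * dg u Y ≤ D) → (∀ j ∈ Y, 5 * dgR X j ≤ D) →
    D * (X.length + Y.length) ≤ D * (M + c) + edges X Y →
    2 ^ k * (cnt X Y - apx (6 * k) X Y) ≤ 2 ^ (M + c)

/-- ALD. `algD` is the sum of `apx (bud W T).length` over the leaves (`tot_flatMap_leafExp`); lower
bound by `apx_le` and T_LLE. Error: `(bud W T).length = 6 * k`, `k = size t + 3 * size w`,
`2 ^ k ≥ t * w ^ 3`; `Cond` applied to the reversed lists of a leaf (T_INV; `edges`, lengths are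
invariant under reversal) and T_LER with `M = max a b`: `2 ^ k * err ≤ 2 ^ (M + c) ≤ w * 2 ^ M`,
so `t * w ^ 2 * err ≤ 2 ^ M` for each leaf; at most `w ^ 2` leaves (T_LGD), and
`2 ^ M ≤ cnt X (range b)` (`cnt_ge_right`, `cnt_ge_left`). -/
def T_ALD : Prop :=
  (∀ (D : ℕ) (W T B : Un) (X : List (List Bool)), algD D W T B X ≤ cnt X (List.range B.length)) ∧
  ∀ (D c : ℕ), 1 ≤ D → ∀ (W T B : Un) (X : List (List Bool)), Cond D c B X →
    2 ^ c ≤ W.length → Sub X.length (5 * B.length / D) ≤ W.length →
    Sub B.length (5 * X.length / D) ≤ W.length →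
    T.length * (cnt X (List.range B.length) - algD D W T B X) ≤ cnt X (List.range B.length)

/-- ALW. Maximum over `D ≤ 5 (a + b) + 1`. For larger `D` use `D' = 5 (a + b) + 1`: `Cond D c`
implies `Cond D' c` for `D' ≤ D`, and `5 b / D' = 5 a / D' = 0`, `Sub m 0 = 1 ≤ W.length`. -/
def T_ALW : Prop :=
  (∀ (W T B : Un) (X : List (List Bool)), algW W T B X ≤ cnt X (List.range B.length)) ∧
  ∀ (D c : ℕ), 1 ≤ D → ∀ (W T B : Un) (X : List (List Bool)), Cond D c B X →
    2 ^ c ≤ W.length → Sub X.length (5 * B.length / D) ≤ W.length →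
    Sub B.length (5 * X.length / D) ≤ W.length →
    T.length * (cnt X (List.range B.length) - algW W T B X) ≤ cnt X (List.range B.length)

/-- DUL. Weak duality: `min a b - c ≤ ∑ f ≤ (a - |I|) + (b - |J|) + e(I, J) / D` (split the sum
over all pairs: `i ∉ I`; `i ∈ I, j ∉ J`; `i ∈ I, j ∈ J`), multiply by `D`. Then the same for
sublists of `rowsOf G` and `List.range G.b` (`List.sublist_map_iff`; see `cnt_eq_pairs` and the
lemmas on `rowOf` in BisTh/Leaf.lean, BisTh/Count.lean for the passage from lists to sets). -/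
def T_DUL : Prop :=
  ∀ (G : Bip) (D c : ℕ), SpreadMatching G D c → Cond D c (List.replicate G.b true) (rowsOf G)

/-- NRS. `f = 1 / (d + s)` on the edges. Total `= e / (d + s) ≥ a d / (d + s) ≥ a - q s`. -/
def T_NRS : Prop :=
  ∀ (G : Bip) (d s q : ℕ), 1 ≤ d → NearRegular G d s → G.a ≤ q * d →
    SpreadMatching G (d + s) (q * s)

/-- LPT. The sweeps run in polynomial time (compare `leafExp_pt`, `childL_pt` in
BisTh/AlgoPT.lean): `PolyF.foldl`; because of the guard every intermediate list has at most
`2 * W.length + 1` states, and every state has size at most `sz X + sz Y + 3`. -/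
def T_LPT : Prop :=
  Fact Core → PolyF (fun x : ℕ × In₂ => leaves x.1 x.2.1 x.2.2.2.1 x.2.2.2.2)

/-- WPT. The whole algorithm. `bud`: as `budget_pt`, `budget_bound`; `leafExp` with this budget as
in `leafExp_pt`; `tot_pt`; then `List.range` of a length (`PolyF.range_length`), `PolyF.map` and
the maximum `maxL` (`PolyF.foldl`, `PolyF.nat_max`; every intermediate value is `0` or a member of
the list). -/
def T_WPT : Prop :=
  Fact Core → PolyF (fun x : In₂ => algW x.1 x.2.1 x.2.2.1 x.2.2.2)

/-! ### The reduction -/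

/-- The degree spread. -/
def mN (T B : Un) (X : List (List Bool)) : Un := T ++ B ++ un X ++ [true, true]

/-- Size of the first parts. -/
def kN (c : ℕ) (T B : Un) (X : List (List Bool)) : Un := pw c (mN T B X)

/-- Left vertices joined to the first part of the right side only. -/
def plN (c : ℕ) (T B : Un) (X : List (List Bool)) : Un := kN c T B X ++ B ++ T ++ [true, true]

/-- Right vertices joined to the first part of the left side only. -/
def prN (c : ℕ) (T B : Un) (X : List (List Bool)) : Un := kN c T B X ++ un X ++ T ++ [true, true]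

/-- The rows of the reduction. -/
def rowsN (c : ℕ) (T B : Un) (X : List (List Bool)) : List (List Bool) :=
  (kN c T B X).map (fun _ => cst false (kN c T B X) ++ cst true (prN c T B X) ++ cst true B) ++
  ((plN c T B X).map (fun _ => cst true (kN c T B X) ++ cst false (prN c T B X) ++ cst false B) ++
  X.map (fun u => cst true (kN c T B X) ++ cst false (prN c T B X) ++ u))

theorem length_rowsN (c : ℕ) (T B : Un) (X : List (List Bool)) :
    (rowsN c T B X).length = (kN c T B X).length + (prN c T B X).length + B.length := by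
  unfold rowsN
  simp only [List.length_append, List.length_map, plN, prN, un_length, List.length_cons,
    List.length_nil]
  omega

theorem mem_rowsN {c : ℕ} {T B : Un} {X : List (List Bool)} (hX : ∀ u ∈ X, u.length = B.length)
    {v : List Bool} (hv : v ∈ rowsN c T B X) :
    v.length = (kN c T B X).length + (prN c T B X).length + B.length := by
  unfold rowsN at hv
  rw [List.mem_append, List.mem_append] at hv
  rcases hv with hv | hv | hv
  · obtain ⟨_, _, rfl⟩ := List.mem_map.1 hv
    simp only [List.length_append, cst_length]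
  · obtain ⟨_, _, rfl⟩ := List.mem_map.1 hv
    simp only [List.length_append, cst_length]
  · obtain ⟨u, hu, rfl⟩ := List.mem_map.1 hv
    simp only [List.length_append, cst_length, hX u hu]

/-- The graph of the reduction. -/
def gN (c : ℕ) (T B : Un) (X : List (List Bool)) : Bip :=
  ofRows ((kN c T B X).length + (prN c T B X).length + B.length) (rowsN c T B X)

/-- CRN. Adapt `cnt_rowsB` of BisTh/Red.lean: with `K, P, b` the lengths, `Y1` the first `K`
columns, `Z` the other rows: `cnt rows Y + cnt Z Y1 = cnt Z Y + 2 ^ K * cnt Z Y1`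
(`cnt_replicate`; the rows of the first block have exactly `Y1` as non-neighbours),
`cnt Z Y1 + 1 = 2 ^ |Z| + 2 ^ K` (`cnt_columns Z [] Y1 []`), and `cnt Z Y` as in `cnt_rowsB`. -/
def T_CRN : Prop :=
  ∀ (c : ℕ) (T B : Un) (X : List (List Bool)),
    cnt (rowsN c T B X) (List.range ((kN c T B X).length + (prN c T B X).length + B.length)) +
      2 * 2 ^ ((prN c T B X).length + B.length) + 2 * 2 ^ (kN c T B X).length =
    2 ^ ((plN c T B X).length + (prN c T B X).length) * cnt X (List.range B.length) +
      2 * 2 ^ ((kN c T B X).length + ((prN c T B X).length + B.length)) +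
      4 ^ (kN c T B X).length + 1

/-- CGN. As `count_gB` in BisTh/Red2.lean: the rest is at most `3 * 2 ^ N`, `N = K + P + b`, and
`K + P' = N + 2 + t` with `P' = plN + prN - K`. -/
def T_CGN : Prop :=
  ∀ (c : ℕ) (T B : Un) (X : List (List Bool)), (∀ u ∈ X, u.length = B.length) →
    2 ^ ((plN c T B X).length + (prN c T B X).length) * cnt X (List.range B.length) ≤
      (gN c T B X).count ∧
    2 ^ T.length * ((gN c T B X).count -
      2 ^ ((plN c T B X).length + (prN c T B X).length) * cnt X (List.range B.length)) ≤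
      2 ^ ((plN c T B X).length + (prN c T B X).length)

/-- DEG. Degrees: first rows `P + b = K + m`, other rows `K + (at most b)`; first columns
`|plN| + |X| = K + m`, other columns `K + (at most a)`. Compare `nearHalf_gB`, `half_gC` in
BisTh/Red2.lean (`le_degL`, `le_degR`, `card_lt`, `card_ge`); the upper bounds in the same way
(the degree is the size of a set of columns resp. rows). -/
def T_DEG : Prop :=
  ∀ (c : ℕ) (T B : Un) (X : List (List Bool)), (∀ u ∈ X, u.length = B.length) →
    NearRegular (gN c T B X) (kN c T B X).length (mN T B X).length ∧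
    (gN c T B X).a = 2 * (kN c T B X).length + (mN T B X).length ∧
    (mN T B X).length ^ c ≤ (gN c T B X).a

/-! ### Final statements -/

/-- INJ. The encoding of the inputs is injective (compare `encInput_injective`). -/
def T_INJ : Prop := Function.Injective encInput₂

/-- ST1. Machine for `algW`: `w` is the third unary number read (`read` collects the unary numbers
in reverse order: right vertices, `t`, `w`); compare `parse_encInput`, `tm_alg`. -/
def T_ST1 : Prop := Statement1

/-- ST2. `algW` with `W = pw (5 * q + q * C) (B ++ un X ++ [true])` and T_NRS (`D = d + s`,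
`c = q * s ≤ q * C * log a`), `Sub m r ≤ (m + 1) ^ r`; `d = 0` gives `a = b = 0`, where
`SpreadMatching G 1 0` is trivial. -/
def T_ST2 : Prop := Statement2

/-- ST3. As `tm_rhoB` and `statementB` in BisTh/Main.lean. -/
def T_ST3 : Prop := Statement3

end Pool.Agent.BisRg
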